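import Pool.Agent.U106.BI.Vals

set_option autoImplicit false

/-!
Billiards in convex polygons: the number of invariant sets with regular slices.
-/

namespace Pool.Agent.U106.BI

open Complex Set MeasureTheory Filter Topology Pool.Agent.W780.PG Pool.Agent.W780.BB
  Pool.Agent.TH103.BL Pool.Agent.N557.BP

open scoped Real ComplexConjugate

variable {n : ℕ} {p : Fin (n + 3) → ℂ}

/-- The indicator function of a set of states. -/
noncomputable def ind (A : Set (ℂ × ℝ)) : ℂ × ℝ → ℝ := A.indicator fun _ => 1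

theorem ind_eq (A : Set (ℂ × ℝ)) (x : ℂ × ℝ) : ind A x = 1 ↔ x ∈ A := by
  unfold ind
  by_cases h : x ∈ A <;> simp [h]

theorem ind_congr {A : Set (ℂ × ℝ)} {x y : ℂ × ℝ} (h : x ∈ A ↔ y ∈ A) : ind A x = ind A y := by
  unfold ind
  by_cases h1 : x ∈ A
  · rw [indicator_of_mem h1, indicator_of_mem (h.1 h1)]
  · rw [indicator_of_notMem h1, indicator_of_notMem fun h2 => h1 (h.2 h2)]

theorem ind_inv {A : Set (ℂ × ℝ)} (h : IsInvariant p A) : IsInvariantFun p (ind A) where
  periodic z θ := ind_congr (h.periodic z θ)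
  free z θ s h1 h2 := ind_congr (h.free z θ s h1 h2)
  reflect i y hy θ s r hs hr h1 h2 := ind_congr (h.reflect i y hy θ s r hs hr h1 h2)

/-- an invariant set of positive measure with regular slices contains neighbourhoods of a vertex -/
theorem at_vertex (hp : IsConvexPolygon p) (hirr : ∀ i, Irrational (ang p i / π))
    {A : Set (ℂ × ℝ)} (hA : MeasurableSet A) (hI : IsInvariant p A)
    (hpos : volume {x : ℂ × ℝ | x.1 ∈ region p ∧ x ∈ A} ≠ 0)
    (hS : SidedVertexLimits p (ind A))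
    (hL : ∀ᵐ θ : ℝ, ∀ᵐ z : ℂ, z ∈ region p → LimAt p (ind A) z θ) :
    ∃ i, ∀ᵐ θ : ℝ, ∃ r : ℝ, 0 < r ∧
      ∀ᵐ z : ℂ, z ∈ region p → ‖z - p i‖ < r → (z, θ) ∈ A := by
  have hm : Measurable (ind A) := measurable_const.indicator hA
  obtain ⟨c, h1, h2⟩ := values hp hirr hm (ind_inv hI) hS hL
  have hex : ∃ i, c i = 1 := by
    by_contra hcon
    push Not at hcon
    refine hpos (measure_eq_zero_iff_ae_notMem.2 ?_)
    filter_upwards [h1] with x hx
    rintro ⟨hr, hxA⟩
    obtain ⟨i, hi⟩ := hx hr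
    rw [(ind_eq A x).2 hxA] at hi
    exact hcon i hi.symm
  obtain ⟨i, hi⟩ := hex
  refine ⟨i, ?_⟩
  filter_upwards [h2] with θ hθ
  obtain ⟨r, hr, hae⟩ := hθ i
  refine ⟨r, hr, ?_⟩
  filter_upwards [hae] with z hz h3 h4
  have := hz h3 h4
  rw [hi, ind_eq] at this
  exact this

/-- at most as many disjoint sets as vertices -/
theorem count (hp : IsConvexPolygon p) (hirr : ∀ i, Irrational (ang p i / π))
    {m : ℕ} {A : Fin m → Set (ℂ × ℝ)} (hA : ∀ k, MeasurableSet (A k))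
    (hI : ∀ k, IsInvariant p (A k))
    (hpos : ∀ k, volume {x : ℂ × ℝ | x.1 ∈ region p ∧ x ∈ A k} ≠ 0)
    (hdis : ∀ k l, k ≠ l → Disjoint (A k) (A l))
    (hS : ∀ k, SidedVertexLimits p (ind (A k)))
    (hL : ∀ k, ∀ᵐ θ : ℝ, ∀ᵐ z : ℂ, z ∈ region p → LimAt p (ind (A k)) z θ) :
    m ≤ n + 3 := by
  choose v hv using fun k => at_vertex hp hirr (hA k) (hI k) (hpos k) (hS k) (hL k)
  have hinj : Function.Injective v := by
    intro k l hkl
    by_contra hne
    have h1 := hv l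
    rw [← hkl] at h1
    obtain ⟨θ, ⟨r1, hr1, ha⟩, r2, hr2, hb⟩ := ((hv k).and h1).exists
    obtain ⟨z0, hz0, hz1⟩ := near_vertex hp (v k) (lt_min hr1 hr2)
    have hev : ∀ᶠ z in 𝓝 z0, z ∈ reg p ∧ ‖z - p (v k)‖ < min r1 r2 := by
      have c1 : ∀ᶠ z in 𝓝 z0, z ∈ reg p := (reg_open hp).mem_nhds hz0
      have c2 : ∀ᶠ z in 𝓝 z0, ‖z - p (v k)‖ < min r1 r2 := by
        have : Continuous fun z : ℂ => ‖z - p (v k)‖ := by fun_prop
        exact (this.tendsto z0).eventually_lt_const hz1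
      exact c1.and c2
    obtain ⟨z, ⟨ha', hb'⟩, hz2, hz3⟩ :=
      (Measure.dense_of_ae (ha.and hb)).inter_nhds_nonempty hev
    have hzr : z ∈ region p := by rw [region_eq hp]; exact hz2
    exact (Set.disjoint_left.1 (hdis k l hne)) (ha' hzr (hz3.trans_le (min_le_left _ _)))
      (hb' hzr (hz3.trans_le (min_le_right _ _)))
  have := Fintype.card_le_of_injective v hinj
  simpa using this

end Pool.Agent.U106.BI
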