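import Pool.Agent.U106.BI.Geo

set_option autoImplicit false

/-!
Billiards in convex polygons: the first vertex met by the strip of half width `r` about the line
starting at a vertex in a given direction determines this line.
-/

namespace Pool.Agent.U106.BI

open Complex Set MeasureTheory Filter Topology Pool.Agent.W780.PG Pool.Agent.W780.BB
  Pool.Agent.TH103.BL Pool.Agent.N557.BP

open scoped Real ComplexConjugate

variable {n : ℕ} {p : Fin (n + 3) → ℂ}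

/-- the line from the vertex `p i` in the direction `θ` has the itinerary `w` up to the frame `K`, and
up to then the end points of the sides it crosses have at least the distance `r` from it -/
structure Hit (p : Fin (n + 3) → ℂ) (i : Fin (n + 3)) (r : ℝ) (K : ℕ) (w : ℕ → Fin (n + 3))
    (θ : ℝ) : Prop where
  ent : 0 < sl p i θ
  ex : ∀ m < K, sl p (w m) (angs p θ w m) < 0
  op : ∀ m < K, vd p (p i) θ w m (w m) * vd p (p i) θ w m (w m + 1) < 0
  wl : ∀ m < K, r ≤ |vd p (p i) θ w m (w m)|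
  wr : ∀ m < K, r ≤ |vd p (p i) θ w m (w m + 1)|

theorem Hit.enter (hp : IsConvexPolygon p) {i : Fin (n + 3)} {r : ℝ} {K : ℕ}
    {w : ℕ → Fin (n + 3)} {θ : ℝ} (H : Hit p i r K w θ) {m : ℕ} (hm : m < K) :
    0 < sl p (w m) (angs p θ w (m + 1)) ∧
    V p (srcs p (p i) w (m + 1)) (angs p θ w (m + 1)) (w m) *
      V p (srcs p (p i) w (m + 1)) (angs p θ w (m + 1)) (w m + 1) < 0 ∧
    r ≤ |V p (srcs p (p i) w (m + 1)) (angs p θ w (m + 1)) (w m)| ∧
    r ≤ |V p (srcs p (p i) w (m + 1)) (angs p θ w (m + 1)) (w m + 1)| := by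
  have e1 : angs p θ w (m + 1) = 2 * tau p (w m) - angs p θ w m := rfl
  have e2 : srcs p (p i) w (m + 1) = rf p (w m) (srcs p (p i) w m) := rfl
  have h1 := H.ex m hm
  have h2 := H.op m hm
  have h3 := H.wl m hm
  have h4 := H.wr m hm
  rw [vd_V] at h2 h3 h4
  rw [vd_V] at h2
  rw [e1, e2, sl_refl hp, V_rf hp (Or.inl rfl), V_rf hp (Or.inr rfl), abs_neg, abs_neg, neg_mul_neg]
  exact ⟨by linarith, h2, h3, h4⟩

/-- closeness of two lines -/
def D (p : Fin (n + 3) → ℂ) (i : Fin (n + 3)) (r : ℝ) (w1 w2 : ℕ → Fin (n + 3)) (θ1 θ2 : ℝ)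
    (a b : ℕ) : Prop :=
  dir (angs p θ1 w1 a) = dir (angs p θ2 w2 b) ∧
    |(conj (dir (angs p θ1 w1 a)) * (srcs p (p i) w1 a - srcs p (p i) w2 b)).im| < r

theorem V_diff {X1 X2 : ℂ} {ψ1 ψ2 : ℝ} (h : dir ψ1 = dir ψ2) (q : Fin (n + 3)) :
    V p X2 ψ2 q = V p X1 ψ1 q - (conj (dir ψ1) * (X1 - X2)).im := by
  rw [← V_dir h]
  unfold V
  rw [← sub_im]
  congr 1
  ring

theorem mul_neg_shift {A B d r : ℝ} (h : A * B < 0) (h1 : r ≤ |A|) (h2 : r ≤ |B|) (hd : |d| < r) :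
    (A - d) * (B - d) < 0 := by
  rw [abs_lt] at hd
  rcases mul_neg_iff.1 h with ⟨ha, hb⟩ | ⟨ha, hb⟩
  · rw [abs_of_pos ha] at h1
    rw [abs_of_neg hb] at h2
    exact mul_neg_of_pos_of_neg (by linarith) (by linarith)
  · rw [abs_of_neg ha] at h1
    rw [abs_of_pos hb] at h2
    exact mul_neg_of_neg_of_pos (by linarith) (by linarith)

theorem D_step (hp : IsConvexPolygon p) {i : Fin (n + 3)} {r : ℝ} {K1 K2 : ℕ}
    {w1 w2 : ℕ → Fin (n + 3)} {θ1 θ2 : ℝ} (H1 : Hit p i r K1 w1 θ1) (H2 : Hit p i r K2 w2 θ2)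
    {a b : ℕ} (ha : a < K1) (hb : b < K2) (h : D p i r w1 w2 θ1 θ2 (a + 1) (b + 1)) :
    w1 a = w2 b ∧ D p i r w1 w2 θ1 θ2 a b := by
  obtain ⟨hd, hv⟩ := h
  obtain ⟨a1, a2, a3, a4⟩ := H1.enter hp ha
  obtain ⟨b1, b2, b3, b4⟩ := H2.enter hp hb
  have heq : w1 a = w2 b := by
    refine enter_unique hp (X := srcs p (p i) w2 (b + 1)) (ψ := angs p θ2 w2 (b + 1)) ?_ b1 ?_ b2
    · rw [← sl_dir hd]; exact a1
    · rw [V_diff hd, V_diff hd]
      exact mul_neg_shift a2 a3 a4 hv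
  refine ⟨heq, ?_, ?_⟩
  · have e1 : angs p θ1 w1 a = 2 * tau p (w1 a) - angs p θ1 w1 (a + 1) := by
      show _ = 2 * tau p (w1 a) - (2 * tau p (w1 a) - angs p θ1 w1 a)
      ring
    have e2 : angs p θ2 w2 b = 2 * tau p (w2 b) - angs p θ2 w2 (b + 1) := by
      show _ = 2 * tau p (w2 b) - (2 * tau p (w2 b) - angs p θ2 w2 b)
      ring
    rw [e1, e2, dir_two, dir_two, hd, heq]
  · have h1 := disp_rf (p := p) (w1 a) (srcs p (p i) w1 a) (srcs p (p i) w2 b) (angs p θ1 w1 a)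
    have e1 : angs p θ1 w1 (a + 1) = 2 * tau p (w1 a) - angs p θ1 w1 a := rfl
    have e2 : srcs p (p i) w1 (a + 1) = rf p (w1 a) (srcs p (p i) w1 a) := rfl
    have e3 : srcs p (p i) w2 (b + 1) = rf p (w1 a) (srcs p (p i) w2 b) := by
      show rf p (w2 b) _ = _
      rw [heq]
    rw [e1, e2, e3, h1, abs_neg] at hv
    exact hv

theorem hit_aux (hp : IsConvexPolygon p) {i : Fin (n + 3)} {r : ℝ} {K1 K2 : ℕ}
    {w1 w2 : ℕ → Fin (n + 3)} {θ1 θ2 : ℝ} (H1 : Hit p i r K1 w1 θ1) (H2 : Hit p i r K2 w2 θ2)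
    (hK : K1 ≤ K2) (h : D p i r w1 w2 θ1 θ2 K1 K2) : K1 = K2 ∧ ∀ m < K1, w1 m = w2 m := by
  have key : ∀ m, m ≤ K1 → D p i r w1 w2 θ1 θ2 (K1 - m) (K2 - m) ∧
      ∀ m' < m, w1 (K1 - 1 - m') = w2 (K2 - 1 - m') := by
    intro m
    induction m with
    | zero => exact fun _ => ⟨h, fun m' hm' => absurd hm' (by omega)⟩
    | succ m ih =>
      intro hm
      obtain ⟨h1, h2⟩ := ih (by omega)
      have e1 : K1 - m = (K1 - (m + 1)) + 1 := by omega
      have e2 : K2 - m = (K2 - (m + 1)) + 1 := by omega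
      rw [e1, e2] at h1
      obtain ⟨h3, h4⟩ := D_step hp H1 H2 (by omega) (by omega) h1
      refine ⟨h4, fun m' hm' => ?_⟩
      rcases Nat.lt_succ_iff_lt_or_eq.1 hm' with h5 | h5
      · exact h2 m' h5
      · rw [h5]
        have e3 : K1 - 1 - m = K1 - (m + 1) := by omega
        have e4 : K2 - 1 - m = K2 - (m + 1) := by omega
        rw [e3, e4]
        exact h3
  obtain ⟨h1, h2⟩ := key K1 le_rfl
  have hKK : K1 = K2 := by
    by_contra hne
    have hlt : K1 < K2 := lt_of_le_of_ne hK hne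
    rw [Nat.sub_self] at h1
    obtain ⟨hd, hv⟩ := h1
    obtain ⟨b, hb⟩ : ∃ b, K2 - K1 = b + 1 := ⟨K2 - K1 - 1, by omega⟩
    rw [hb] at hd hv
    obtain ⟨b1, b2, b3, b4⟩ := H2.enter hp (show b < K2 by omega)
    have h0 : V p (srcs p (p i) w2 (b + 1)) (angs p θ2 w2 (b + 1)) i =
        - (conj (dir (angs p θ1 w1 0)) * (srcs p (p i) w1 0 - srcs p (p i) w2 (b + 1))).im := by
      rw [V_diff hd]
      have : V p (srcs p (p i) w1 0) (angs p θ1 w1 0) i = 0 := by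
        show (conj (dir θ1) * (p i - p i)).im = 0
        rw [sub_self, mul_zero, zero_im]
      rw [this, zero_sub]
    have h3 := near_exit hp b1 b2 b3 b4 (i := i) (by rw [h0, abs_neg]; exact hv)
    have h4 := H1.ent
    rw [← sl_dir hd] at h3
    have h5 : sl p i θ1 < 0 := h3.1
    linarith
  refine ⟨hKK, fun m hm => ?_⟩
  have := h2 (K1 - 1 - m) (by omega)
  have e1 : K1 - 1 - (K1 - 1 - m) = m := by omega
  have e2 : K2 - 1 - (K1 - 1 - m) = m := by omega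
  rwa [e1, e2] at this

theorem hit_unique (hp : IsConvexPolygon p) {i j : Fin (n + 3)} {r : ℝ} {K1 K2 : ℕ}
    {w1 w2 : ℕ → Fin (n + 3)} {θ1 θ2 : ℝ} (H1 : Hit p i r K1 w1 θ1) (H2 : Hit p i r K2 w2 θ2)
    (hd : dir (angs p θ1 w1 K1) = dir (angs p θ2 w2 K2))
    (hv : |vd p (p i) θ1 w1 K1 j - vd p (p i) θ2 w2 K2 j| < r) :
    K1 = K2 ∧ ∀ m < K1, w1 m = w2 m := by
  have e := V_diff (p := p) (X1 := srcs p (p i) w1 K1) (X2 := srcs p (p i) w2 K2) hd j
  rw [← vd_V, ← vd_V] at e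
  have e2 : vd p (p i) θ1 w1 K1 j - vd p (p i) θ2 w2 K2 j =
      (conj (dir (angs p θ1 w1 K1)) * (srcs p (p i) w1 K1 - srcs p (p i) w2 K2)).im := by
    rw [e]; ring
  rw [e2] at hv
  rcases le_total K1 K2 with hK | hK
  · exact hit_aux hp H1 H2 hK ⟨hd, hv⟩
  · have hv' : |(conj (dir (angs p θ2 w2 K2)) * (srcs p (p i) w2 K2 - srcs p (p i) w1 K1)).im| < r := by
      rw [← hd, ← neg_sub, mul_neg, neg_im, abs_neg]
      exact hv
    obtain ⟨h1, h2⟩ := hit_aux hp H2 H1 hK ⟨hd.symm, hv'⟩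
    exact ⟨h1.symm, fun m hm => (h2 m (by omega)).symm⟩

end Pool.Agent.U106.BI
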