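import Pool.Agent.N557.BP.Opp
import Pool.Agent.N262.BP.EXIT
import Pool.Agent.N700.BP.R1

set_option autoImplicit false

/-!
Billiards in convex polygons: lines and their unfolded itineraries, geometry.
-/

namespace Pool.Agent.U106.BI

open Complex Set MeasureTheory Filter Topology Pool.Agent.W780.PG Pool.Agent.W780.BB
  Pool.Agent.TH103.BL Pool.Agent.N557.BP

open scoped Real ComplexConjugate

variable {n : ℕ} {p : Fin (n + 3) → ℂ}

/-- the signed distance of the line through `X` in the direction `ψ` from the vertex `p j` -/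
noncomputable def V (p : Fin (n + 3) → ℂ) (X : ℂ) (ψ : ℝ) (j : Fin (n + 3)) : ℝ :=
  (conj (dir ψ) * (X - p j)).im

theorem vd_V (z : ℂ) (θ : ℝ) (u : ℕ → Fin (n + 3)) (m : ℕ) (j : Fin (n + 3)) :
    vd p z θ u m j = V p (srcs p z u m) (angs p θ u m) j := rfl

theorem sf_self_left (i : Fin (n + 3)) : sf p i (p i) = 0 := Pool.Agent.W82.BB.sf_vertex_left p i

theorem sf_self_right (i : Fin (n + 3)) : sf p (i - 1) (p i) = 0 :=
  Pool.Agent.W82.BB.sf_vertex_right p i

/-- A line enters the polygon through only one side. -/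
theorem enter_unique (hp : IsConvexPolygon p) {X : ℂ} {ψ : ℝ} {b c : Fin (n + 3)}
    (hb : 0 < sl p b ψ) (hc : 0 < sl p c ψ) (hb' : V p X ψ b * V p X ψ (b + 1) < 0)
    (hc' : V p X ψ c * V p X ψ (c + 1) < 0) : b = c := by
  by_contra hne
  obtain ⟨s1, h1⟩ := Pool.Agent.N262.BP.meet X (p b) (p (b + 1)) ψ hb'
  obtain ⟨s2, h2⟩ := Pool.Agent.N262.BP.meet X (p c) (p (c + 1)) ψ hc'
  have h1' : X + s1 • dir ψ ∈ side p b := h1
  have h2' : X + s2 • dir ψ ∈ side p c := h2
  have a1 := side_zero hp h1'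
  have a2 := side_zero hp h2'
  have a3 := side_pos hp h1' (Ne.symm hne)
  have a4 := side_pos hp h2' hne
  rw [sf_ray] at a1 a2 a3 a4
  have b1 : 0 < (s1 - s2) * sl p c ψ := by linarith
  have b2 : 0 < (s2 - s1) * sl p b ψ := by linarith
  have c1 : 0 < s1 - s2 := pos_of_mul_pos_left b1 hc.le
  have c2 : 0 < s2 - s1 := pos_of_mul_pos_left b2 hb.le
  linarith

/-- If a line enters through the middle part of a side, the lines through the vertices close to it
leave the polygon at these vertices. -/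
theorem near_exit (hp : IsConvexPolygon p) {X : ℂ} {ψ r : ℝ} {c i : Fin (n + 3)}
    (hc : 0 < sl p c ψ) (hc' : V p X ψ c * V p X ψ (c + 1) < 0) (h1 : r ≤ |V p X ψ c|)
    (h2 : r ≤ |V p X ψ (c + 1)|) (hi : |V p X ψ i| < r) :
    sl p i ψ < 0 ∧ sl p (i - 1) ψ < 0 := by
  have hic : i ≠ c := by
    rintro rfl
    linarith
  have hic1 : i ≠ c + 1 := by
    rintro rfl
    linarith
  have e : ∀ j, V p (p i) ψ j = V p X ψ j - V p X ψ i := by
    intro j
    unfold V
    rw [← sub_im]
    congr 1
    ring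
  have hmeet : V p (p i) ψ c * V p (p i) ψ (c + 1) < 0 := by
    rw [e, e]
    rw [abs_lt] at hi
    rcases mul_neg_iff.1 hc' with ⟨ha, hb⟩ | ⟨ha, hb⟩
    · rw [abs_of_pos ha] at h1
      rw [abs_of_neg hb] at h2
      exact mul_neg_of_pos_of_neg (by linarith) (by linarith)
    · rw [abs_of_neg ha] at h1
      rw [abs_of_pos hb] at h2
      exact mul_neg_of_neg_of_pos (by linarith) (by linarith)
  obtain ⟨s, hs⟩ := Pool.Agent.N262.BP.meet (p i) (p c) (p (c + 1)) ψ hmeet
  have hs' : p i + s • dir ψ ∈ side p c := hs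
  have h0 := side_zero hp hs'
  rw [sf_ray] at h0
  have hpos : 0 < sf p c (p i) := hp.pos c i hic hic1
  have hsneg : s < 0 := by
    by_contra hcon
    push Not at hcon
    have := mul_nonneg hcon hc.le
    linarith
  have key : ∀ k, k ≠ c → sf p k (p i) = 0 → sl p k ψ < 0 := by
    intro k hk hk0
    have h3 := side_pos hp hs' hk
    rw [sf_ray, hk0, zero_add] at h3
    by_contra hcon
    push Not at hcon
    have := mul_nonpos_of_nonpos_of_nonneg hsneg.le hcon
    linarith
  refine ⟨key i hic (sf_self_left i), key (i - 1) ?_ (sf_self_right i)⟩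
  intro h
  exact hic1 (by rw [← h, sub_add_cancel])

theorem sl_dir {φ ψ : ℝ} (h : dir φ = dir ψ) (i : Fin (n + 3)) : sl p i φ = sl p i ψ := by
  unfold sl
  rw [h]

theorem V_dir {φ ψ : ℝ} (h : dir φ = dir ψ) (X : ℂ) (i : Fin (n + 3)) : V p X φ i = V p X ψ i := by
  unfold V
  rw [h]

theorem dir_two (a φ : ℝ) : dir (a - φ) = dir a * conj (dir φ) := by
  rw [conj_dir, dir_mul, sub_eq_add_neg]

/-- displacement under reflection -/
theorem disp_rf (a : Fin (n + 3)) (X Y : ℂ) (φ : ℝ) :
    (conj (dir (2 * tau p a - φ)) * (rf p a X - rf p a Y)).im =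
      - (conj (dir φ) * (X - Y)).im := by
  have e1 : rf p a X - rf p a Y = dir (2 * tau p a) * conj (X - Y) := by
    unfold rf
    rw [map_sub, map_sub, map_sub]
    ring
  have e2 : conj (dir (2 * tau p a - φ)) * (dir (2 * tau p a) * conj (X - Y)) =
      conj (conj (dir φ) * (X - Y)) := by
    rw [← mul_assoc, conj_dir, dir_mul, map_mul, conj_dir, conj_dir, neg_neg]
    congr 2
    ring
  rw [e1, e2, conj_im]

theorem rf_vertex (hp : IsConvexPolygon p) {a q : Fin (n + 3)} (h : q = a ∨ q = a + 1) :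
    rf p a (p q) = p q := by
  apply rf_fix hp
  rcases h with rfl | rfl
  · exact sf_self_left _
  · have := sf_self_right (p := p) (a + 1)
    rwa [add_sub_cancel_right] at this

/-- the distances from the end points of the side of reflection change their signs -/
theorem V_rf (hp : IsConvexPolygon p) {a q : Fin (n + 3)} (h : q = a ∨ q = a + 1) (X : ℂ) (φ : ℝ) :
    V p (rf p a X) (2 * tau p a - φ) q = - V p X φ q := by
  unfold V
  have := disp_rf (p := p) a X (p q) φ
  rw [rf_vertex hp h] at this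
  exact this

end Pool.Agent.U106.BI
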