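import Pool.Agent.U106.BI.Rev
import Pool.Agent.N557.BP.Fin

set_option autoImplicit false

/-!
Billiards in convex polygons: limits across the lines which hit a vertex.
-/

namespace Pool.Agent.U106.BI

open Complex Set MeasureTheory Filter Topology Pool.Agent.W780.PG Pool.Agent.W780.BB
  Pool.Agent.TH103.BL Pool.Agent.N557.BP

open scoped Real ComplexConjugate

variable {n : ℕ} {p : Fin (n + 3) → ℂ}

/-- The slice in the direction `θ` has (up to a null set) a limit at the point `z0`. -/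
def LimAt (p : Fin (n + 3) → ℂ) (f : ℂ × ℝ → ℝ) (z0 : ℂ) (θ : ℝ) : Prop :=
  ∃ l : ℝ, ∀ η : ℝ, 0 < η → ∃ r : ℝ, 0 < r ∧
    ∀ᵐ z : ℂ, z ∈ region p → ‖z - z0‖ < r → |f (z, θ) - l| ≤ η

/-- The forward orbit of the state `(z, θ)` hits a vertex: for some itinerary `w` the straight path
from `z` in the direction `θ` crosses, after unfolding, exactly the sides in the list `w`, and then
runs inside the polygon into its vertex `p j`. -/
def HitsVertex (p : Fin (n + 3) → ℂ) (z : ℂ) (θ : ℝ) : Prop :=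
  ∃ (w : List (Fin (n + 3))) (j : Fin (n + 3)) (s1 s : ℝ), s1 < s ∧ z + s • dir θ = uf p w (p j) ∧
    ∀ s', s1 < s' → s' < s → Ch p w z (z + s' • dir θ)

theorem lim_of_hit (hp : IsConvexPolygon p) {f : ℂ × ℝ → ℝ} (hI : IsInvariantFun p f)
    (hV : ∀ i, ∀ᵐ θ : ℝ, VL p f i θ) :
    ∀ᵐ θ : ℝ, ∀ z ∈ reg p, HitsVertex p z θ → LimAt p f z θ := by
  have hrr := region_eq hp
  have hw : ∀ᵐ θ : ℝ, ∀ (w : List (Fin (n + 3))) (j : Fin (n + 3)),
      VL p f j (Pool.Agent.N681.BP.fda p w θ) := by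
    rw [ae_all_iff]
    intro w
    rw [ae_all_iff]
    intro j
    exact (Pool.Agent.N681.BP.mp_fda p w).quasiMeasurePreserving.ae (hV j)
  filter_upwards [hw] with θ hθ z hz ⟨w, j, s1, s, hs, hs2, hch⟩
  obtain ⟨l, hl⟩ := hθ w j
  refine ⟨l, fun η hη => ?_⟩
  obtain ⟨r, hr, hae⟩ := hl η hη
  obtain ⟨s', h1, h2, h3⟩ : ∃ s', s1 < s' ∧ s' < s ∧ s - s' < r / 2 := by
    refine ⟨max ((s1 + s) / 2) (s - r / 4), ?_, ?_, ?_⟩
    · exact (by linarith : s1 < (s1 + s) / 2).trans_le (le_max_left _ _)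
    · exact max_lt (by linarith) (by linarith)
    · have := le_max_right ((s1 + s) / 2) (s - r / 4)
      linarith
  have hc : Continuous fun y : ℂ => y + s' • dir θ := by fun_prop
  have e1 : ∀ᶠ y in 𝓝 z, Ch p w y (y + s' • dir θ) :=
    ((Pool.Agent.W762.BB.open_it n p hp w).preimage (continuous_id.prodMk hc)).mem_nhds
      (hch s' h1 h2)
  have e2 : ∀ᶠ y in 𝓝 z, y ∈ reg p := (reg_open hp).mem_nhds hz
  obtain ⟨δ, hδ, hball⟩ := Metric.eventually_nhds_iff.1 (e1.and e2)
  refine ⟨min δ (r / 2), lt_min hδ (half_pos hr), ?_⟩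
  have hmp : MeasurePreserving (fun y : ℂ => fp p w (y + s' • dir θ)) :=
    (Pool.Agent.N681.BP.mp_fp p w).comp
      (measurePreserving_add_right (volume : Measure ℂ) (s' • dir θ))
  filter_upwards [hmp.quasiMeasurePreserving.ae hae] with y hy hyr hyn
  obtain ⟨c1, c2⟩ := hball (y := y) (by rw [dist_eq_norm]; exact hyn.trans_le (min_le_left _ _))
  rw [inv_fun hp hI c2 c1, Pool.Agent.N681.BP.fd_eq]
  refine hy (by rw [hrr]; exact ch_mem w _ _ c1) ?_
  have h4 : fp p w (uf p w (p j)) = p j := ((hR n p hp).2.2.2.2.2.2.1 w (p j)).1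
  have h5 : ‖fp p w (y + s' • dir θ) - fp p w (uf p w (p j))‖ = ‖y + s' • dir θ - uf p w (p j)‖ :=
    (hR n p hp).2.2.2.2.2.2.2.1 w _ _
  rw [h4] at h5
  rw [h5, ← hs2]
  calc ‖y + s' • dir θ - (z + s • dir θ)‖ = ‖(y - z) - (s - s') • dir θ‖ := by
        rw [sub_smul]; congr 1; ring
    _ ≤ ‖y - z‖ + ‖(s - s') • dir θ‖ := norm_sub_le _ _
    _ < r := by
        rw [norm_smul, norm_dir, mul_one, Real.norm_eq_abs, abs_of_pos (by linarith)]
        have := hyn.trans_le (min_le_right _ _)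
        linarith

/-- limits everywhere give a continuous version -/
theorem open_of_lim (hp : IsConvexPolygon p) {f : ℂ × ℝ → ℝ} {θ : ℝ}
    (h : ∀ z ∈ reg p, LimAt p f z θ) :
    ∃ G : ℂ → ℝ, ContinuousOn G (region p) ∧ ∀ᵐ z : ℂ, z ∈ region p → f (z, θ) = G z := by
  classical
  have hrr := region_eq hp
  have hopen := reg_open hp
  choose! G hG using h
  -- closeness of the values
  have hclose : ∀ z ∈ reg p, ∀ η : ℝ, 0 < η → ∃ r : ℝ, 0 < r ∧
      (∀ᵐ y : ℂ, ‖y - z‖ < r → y ∈ reg p ∧ |f (y, θ) - G z| ≤ η) ∧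
      ∀ y, ‖y - z‖ < r → y ∈ reg p ∧ |G y - G z| ≤ 2 * η := by
    intro z hz η hη
    obtain ⟨r1, hr1, hae⟩ := hG z hz η hη
    obtain ⟨r2, hr2, hball⟩ := Metric.isOpen_iff.1 hopen z hz
    have hmem : ∀ y, ‖y - z‖ < min r1 r2 → y ∈ reg p := fun y hy =>
      hball (by rw [mem_ball_iff_norm]; exact hy.trans_le (min_le_right _ _))
    refine ⟨min r1 r2, lt_min hr1 hr2, ?_, fun y hy => ⟨hmem y hy, ?_⟩⟩
    · filter_upwards [hae] with y h1 h2
      exact ⟨hmem y h2, h1 (by rw [hrr]; exact hmem y h2) (h2.trans_le (min_le_left _ _))⟩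
    · obtain ⟨r3, hr3, hae3⟩ := hG y (hmem y hy) η hη
      have hev : ∀ᶠ x in 𝓝 y, x ∈ reg p ∧ ‖x - z‖ < r1 ∧ ‖x - y‖ < r3 := by
        have c1 : ∀ᶠ x in 𝓝 y, x ∈ reg p := hopen.mem_nhds (hmem y hy)
        have c2 : ∀ᶠ x in 𝓝 y, ‖x - z‖ < r1 := by
          have : Continuous fun x : ℂ => ‖x - z‖ := by fun_prop
          exact (this.tendsto y).eventually_lt_const (hy.trans_le (min_le_left _ _))
        have c3 : ∀ᶠ x in 𝓝 y, ‖x - y‖ < r3 := by
          have : Continuous fun x : ℂ => ‖x - y‖ := by fun_prop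
          exact (this.tendsto y).eventually_lt_const (by rw [sub_self, norm_zero]; exact hr3)
        exact c1.and (c2.and c3)
      obtain ⟨x, ⟨hx1, hx2⟩, hx3, hx4, hx5⟩ :=
        (Measure.dense_of_ae (hae.and hae3)).inter_nhds_nonempty hev
      have a1 := hx1 (by rw [hrr]; exact hx3) hx4
      have a2 := hx2 (by rw [hrr]; exact hx3) hx5
      have e : G y - G z = (f (x, θ) - G z) - (f (x, θ) - G y) := by ring
      rw [e]
      refine (abs_sub _ _).trans ?_
      linarith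
  refine ⟨G, ?_, ?_⟩
  · rw [hrr]
    intro z hz
    apply ContinuousAt.continuousWithinAt
    rw [Metric.continuousAt_iff]
    intro ε hε
    obtain ⟨r, hr, -, h2⟩ := hclose z hz (ε / 4) (by positivity)
    refine ⟨r, hr, fun {y} hy => ?_⟩
    rw [dist_eq_norm] at hy
    rw [Real.dist_eq]
    have := (h2 y hy).2
    linarith
  · have hnull : ∀ m : ℕ, volume {z : ℂ | z ∈ reg p ∧ 3 * (1 / ((m : ℝ) + 1)) < |f (z, θ) - G z|} = 0 := by
      intro m
      refine measure_null_of_locally_null _ fun z hz => ?_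
      obtain ⟨r, hr, h1, h2⟩ := hclose z hz.1 (1 / ((m : ℝ) + 1)) (by positivity)
      refine ⟨Metric.ball z r ∩ {z : ℂ | z ∈ reg p ∧ 3 * (1 / ((m : ℝ) + 1)) < |f (z, θ) - G z|},
        inter_mem (mem_nhdsWithin_of_mem_nhds (Metric.ball_mem_nhds z hr)) self_mem_nhdsWithin, ?_⟩
      rw [measure_eq_zero_iff_ae_notMem]
      filter_upwards [h1] with y hy hmem
      obtain ⟨h3, h4, h5⟩ := hmem
      rw [mem_ball_iff_norm] at h3
      have a1 := (hy h3).2
      have a2 := (h2 y h3).2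
      have e : f (y, θ) - G y = (f (y, θ) - G z) - (G y - G z) := by ring
      rw [e] at h5
      have := h5.trans_le (abs_sub _ _)
      linarith
    have hall := ae_all_iff.2 fun m => measure_eq_zero_iff_ae_notMem.1 (hnull m)
    filter_upwards [hall] with z hz hzr
    rw [hrr] at hzr
    by_contra hne
    have hpos : 0 < |f (z, θ) - G z| := abs_pos.2 (sub_ne_zero.2 hne)
    obtain ⟨m, hm⟩ := exists_nat_one_div_lt (show 0 < |f (z, θ) - G z| / 3 by positivity)
    exact hz m ⟨hzr, by linarith⟩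

/-- Limits across the lines which do not hit a vertex, and one-sided limits at the vertices, imply that
the function is constant. -/
theorem main (hp : IsConvexPolygon p) (hirr : ∀ i, Irrational (ang p i / π))
    {f : ℂ × ℝ → ℝ} (hf : Measurable f) (hI : IsInvariantFun p f) (hS : SidedVertexLimits p f)
    (hL : ∀ᵐ θ : ℝ, ∀ z ∈ region p, ¬ HitsVertex p z θ → ¬ HitsVertex p z (θ + π) →
      LimAt p f z θ) : ∃ c : ℝ, ∀ᵐ x : ℂ × ℝ, x.1 ∈ region p → f x = c := by
  have hrr := region_eq hp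
  have hV := all_limits hp hirr hf hI (out_of_sided hp hI hS)
  set g : ℂ × ℝ → ℝ := fun x => f (x.1, x.2 + π) with hg
  have hgI : IsInvariantFun p g := rev_inv hI
  have hVg : ∀ i, ∀ᵐ θ : ℝ, VL p g i θ := fun i =>
    (measurePreserving_add_right (volume : Measure ℝ) π).quasiMeasurePreserving.ae (hV i)
  have h1 := lim_of_hit hp hI hV
  have h2 := (measurePreserving_add_right (volume : Measure ℝ) π).quasiMeasurePreserving.ae
    (lim_of_hit hp hgI hVg)
  refine final_open n p hp hirr f hf hI ?_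
  filter_upwards [h1, h2, hL] with θ e1 e2 e3
  refine open_of_lim hp fun z hz => ?_
  by_cases c1 : HitsVertex p z θ
  · exact e1 z hz c1
  by_cases c2 : HitsVertex p z (θ + π)
  · obtain ⟨l, hl⟩ := e2 z hz c2
    refine ⟨l, fun η hη => ?_⟩
    obtain ⟨r, hr, hae⟩ := hl η hη
    refine ⟨r, hr, ?_⟩
    filter_upwards [hae] with y hy h3 h4
    have h5 := hy h3 h4
    have h6 : g (y, θ + π) = f (y, θ) := by
      show f (y, θ + π + π) = f (y, θ)
      rw [show θ + π + π = θ + 2 * π by ring, hI.periodic]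
    rwa [h6] at h5
  · exact e3 z (by rw [hrr]; exact hz) c1 c2

end Pool.Agent.U106.BI
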