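import Pool.Agent.U106.BI.Disj

set_option autoImplicit false

/-!
Billiards in convex polygons: the map which sends a direction at a vertex to the direction in which the
first vertex in the strip is reached does not decrease measures.
-/

namespace Pool.Agent.U106.BI

open Complex Set MeasureTheory Filter Topology Pool.Agent.W780.PG Pool.Agent.W780.BB
  Pool.Agent.TH103.BL Pool.Agent.N557.BP

open scoped Real ComplexConjugate

variable {n : ℕ} {p : Fin (n + 3) → ℂ}

/-! ### periodic sets -/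

theorem per_int {S : Set ℝ} (hper : ∀ x, x + 2 * π ∈ S ↔ x ∈ S) (k : ℤ) (x : ℝ) :
    x + k * (2 * π) ∈ S ↔ x ∈ S := by
  induction k using Int.induction_on with
  | zero => simp
  | succ k ih =>
    have h := hper (x + (k : ℤ) * (2 * π))
    rw [← ih, ← h]
    push_cast
    ring_nf
  | pred k ih =>
    have h := hper (x + ((-(k : ℤ) - 1 : ℤ) : ℝ) * (2 * π))
    rw [← ih, ← h]
    push_cast
    ring_nf

theorem per_window {S : Set ℝ} (hS : MeasurableSet S) (hper : ∀ x, x + 2 * π ∈ S ↔ x ∈ S)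
    (a b : ℝ) : volume (S ∩ Ioc a (a + 2 * π)) = volume (S ∩ Ioc b (b + 2 * π)) := by
  refine (isAddFundamentalDomain_Ioc Real.two_pi_pos a volume).measure_set_eq
    (isAddFundamentalDomain_Ioc Real.two_pi_pos b volume) hS ?_
  rintro ⟨g, hg⟩
  obtain ⟨k, rfl⟩ := AddSubgroup.mem_zmultiples_iff.1 hg
  ext x
  show (k • (2 * π)) +ᵥ x ∈ S ↔ x ∈ S
  rw [vadd_eq_add, zsmul_eq_mul, add_comm]
  exact per_int hper k x

theorem per_pre {S : Set ℝ} (hS : MeasurableSet S) (hper : ∀ x, x + 2 * π ∈ S ↔ x ∈ S)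
    {e c : ℝ} (he : e = 1 ∨ e = -1) (a : ℝ) :
    volume ((fun θ => e * θ + c) ⁻¹' S ∩ Ioc a (a + 2 * π)) = volume (S ∩ Ioc 0 (2 * π)) := by
  have hTm : MeasurableSet ((fun θ => e * θ + c) ⁻¹' S) :=
    hS.preimage (by fun_prop)
  have hTper : ∀ x, x + 2 * π ∈ ((fun θ => e * θ + c) ⁻¹' S) ↔ x ∈ ((fun θ => e * θ + c) ⁻¹' S) := by
    intro x
    show e * (x + 2 * π) + c ∈ S ↔ e * x + c ∈ S
    rcases he with rfl | rfl
    · rw [← hper (1 * x + c)]
      ring_nf
    · rw [← hper (-1 * (x + 2 * π) + c)]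
      ring_nf
  rcases he with rfl | rfl
  · rw [per_window hTm hTper a (-c)]
    have h1 : (fun θ => 1 * θ + c) ⁻¹' S ∩ Ioc (-c) (-c + 2 * π) =
        (fun θ => θ + c) ⁻¹' (S ∩ Ioc 0 (2 * π)) := by
      ext x
      constructor
      · rintro ⟨h1, h2, h3⟩
        refine ⟨by simpa using h1, ?_, ?_⟩
        · show 0 < x + c
          linarith
        · show x + c ≤ 2 * π
          linarith
      · rintro ⟨h1, h2, h3⟩
        have h2' : 0 < x + c := h2
        have h3' : x + c ≤ 2 * π := h3
        exact ⟨by simpa using h1, by linarith, by linarith⟩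
    rw [h1]
    exact (measurePreserving_add_right (volume : Measure ℝ) c).measure_preimage
      (hS.inter measurableSet_Ioc).nullMeasurableSet
  · rw [per_window hTm hTper a (c - 2 * π), sub_add_cancel]
    have h1 : (fun θ => -1 * θ + c) ⁻¹' S ∩ Ico (c - 2 * π) c =
        (fun θ => c - θ) ⁻¹' (S ∩ Ioc 0 (2 * π)) := by
      ext x
      have e1 : -1 * x + c = c - x := by ring
      constructor
      · rintro ⟨h1, h2, h3⟩
        refine ⟨?_, ?_, ?_⟩
        · show c - x ∈ S
          rw [← e1]; exact h1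
        · show 0 < c - x
          linarith
        · show c - x ≤ 2 * π
          linarith
      · rintro ⟨h1, h2, h3⟩
        have h2' : 0 < c - x := h2
        have h3' : c - x ≤ 2 * π := h3
        refine ⟨?_, by linarith, by linarith⟩
        show -1 * x + c ∈ S
        rw [e1]; exact h1
    have h2 : volume ((fun θ => -1 * θ + c) ⁻¹' S ∩ Ioc (c - 2 * π) c) =
        volume ((fun θ => -1 * θ + c) ⁻¹' S ∩ Ico (c - 2 * π) c) := by
      refine measure_congr ?_
      exact (ae_eq_refl _).inter Ico_ae_eq_Ioc.symm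
    rw [h2, h1]
    exact (Measure.measurePreserving_sub_left (volume : Measure ℝ) c).measure_preimage
      (hS.inter measurableSet_Ioc).nullMeasurableSet

/-! ### the directions along an itinerary -/

theorem angs_affine (w : ℕ → Fin (n + 3)) (K : ℕ) :
    ∃ e c : ℝ, (e = 1 ∨ e = -1) ∧ ∀ θ, angs p θ w K = e * θ + c := by
  induction K with
  | zero => exact ⟨1, 0, Or.inl rfl, fun θ => by show θ = _; ring⟩
  | succ K ih =>
    obtain ⟨e, c, he, h⟩ := ih
    refine ⟨-e, 2 * tau p (w K) - c, ?_, fun θ => ?_⟩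
    · rcases he with rfl | rfl
      · right; rfl
      · left; norm_num
    · show 2 * tau p (w K) - angs p θ w K = _
      rw [h]; ring

theorem dir_per (φ : ℝ) (k : ℤ) : dir (φ + k * (2 * π)) = dir φ := by
  unfold dir
  have : ((φ + k * (2 * π) : ℝ) : ℂ) * I = (φ : ℂ) * I + k * (2 * π * I) := by
    push_cast; ring
  rw [this, exp_periodic.int_mul k]

theorem dir_angs_per (θ : ℝ) (w : ℕ → Fin (n + 3)) (K : ℕ) :
    dir (angs p (θ + 2 * π) w K) = dir (angs p θ w K) := by
  obtain ⟨e, c, he, h⟩ := angs_affine (p := p) w K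
  rw [h, h]
  rcases he with rfl | rfl
  · rw [← dir_per (1 * θ + c) 1]
    congr 1
    push_cast; ring
  · rw [← dir_per (-1 * θ + c) (-1)]
    congr 1
    push_cast; ring

theorem angs_cont (w : ℕ → Fin (n + 3)) (K : ℕ) : Continuous fun θ => angs p θ w K := by
  obtain ⟨e, c, -, h⟩ := angs_affine (p := p) w K
  have : (fun θ => angs p θ w K) = fun θ => e * θ + c := funext h
  rw [this]
  fun_prop

theorem sl_cont (i : Fin (n + 3)) : Continuous (sl p i) := by
  unfold sl dir
  fun_prop

theorem V_cont (X : ℂ) (j : Fin (n + 3)) : Continuous fun ψ => V p X ψ j := by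
  unfold V dir
  fun_prop

theorem vd_cont (z : ℂ) (w : ℕ → Fin (n + 3)) (K : ℕ) (j : Fin (n + 3)) :
    Continuous fun θ => vd p z θ w K j := by
  have : (fun θ => vd p z θ w K j) = fun θ => V p (srcs p z w K) (angs p θ w K) j := rfl
  rw [this]
  exact (V_cont _ _).comp (angs_cont w K)

theorem vd_per (z : ℂ) (θ : ℝ) (w : ℕ → Fin (n + 3)) (K : ℕ) (j : Fin (n + 3)) :
    vd p z (θ + 2 * π) w K j = vd p z θ w K j := by
  rw [vd_V, vd_V]
  exact V_dir (dir_angs_per θ w K) _ _

/-! ### the sets of directions -/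

/-- itinerary of a list -/
def wl (l : List (Fin (n + 3))) (m : ℕ) : Fin (n + 3) := l.getD m 0

/-- the directions at `p i` with the itinerary `l` whose strip then first meets `p j`, on the side
given by the sign `σ` -/
def E (p : Fin (n + 3) → ℂ) (i j : Fin (n + 3)) (σ r : ℝ) (l : List (Fin (n + 3))) : Set ℝ :=
  {θ | Hit p i r l.length (wl l) θ ∧ 0 < σ * vd p (p i) θ (wl l) l.length j ∧
    σ * vd p (p i) θ (wl l) l.length j < r}

theorem hit_meas (i : Fin (n + 3)) (r : ℝ) (K : ℕ) (w : ℕ → Fin (n + 3)) :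
    MeasurableSet {θ | Hit p i r K w θ} := by
  have e : {θ | Hit p i r K w θ} = {θ | 0 < sl p i θ} ∩ ⋂ m ∈ Finset.range K,
      ({θ | sl p (w m) (angs p θ w m) < 0} ∩
      {θ | vd p (p i) θ w m (w m) * vd p (p i) θ w m (w m + 1) < 0} ∩
      {θ | r ≤ |vd p (p i) θ w m (w m)|} ∩ {θ | r ≤ |vd p (p i) θ w m (w m + 1)|}) := by
    ext θ
    simp only [mem_ofPred_eq, mem_inter_iff, mem_iInter, Finset.mem_range]
    constructor
    · intro H
      exact ⟨H.ent, fun m hm => ⟨⟨⟨H.ex m hm, H.op m hm⟩, H.wl m hm⟩, H.wr m hm⟩⟩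
    · rintro ⟨h1, h2⟩
      exact ⟨h1, fun m hm => (h2 m hm).1.1.1, fun m hm => (h2 m hm).1.1.2,
        fun m hm => (h2 m hm).1.2, fun m hm => (h2 m hm).2⟩
  rw [e]
  refine (measurableSet_lt measurable_const (sl_cont i).measurable).inter ?_
  refine Finset.measurableSet_biInter _ fun m _ => ?_
  refine (((measurableSet_lt ((sl_cont _).comp (angs_cont w m)).measurable measurable_const).inter
    (measurableSet_lt ((vd_cont _ w m _).mul (vd_cont _ w m _)).measurable measurable_const)).inter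
    (measurableSet_le measurable_const (vd_cont _ w m _).abs.measurable)).inter
    (measurableSet_le measurable_const (vd_cont _ w m _).abs.measurable)

theorem E_meas (i j : Fin (n + 3)) (σ r : ℝ) (l : List (Fin (n + 3))) :
    MeasurableSet (E p i j σ r l) := by
  refine (hit_meas i r l.length (wl l)).inter (MeasurableSet.inter ?_ ?_)
  · exact measurableSet_lt measurable_const ((vd_cont _ _ _ _).const_mul σ).measurable
  · exact measurableSet_lt ((vd_cont _ _ _ _).const_mul σ).measurable measurable_const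

theorem hit_per {i : Fin (n + 3)} {r : ℝ} {K : ℕ} {w : ℕ → Fin (n + 3)} {θ : ℝ} :
    Hit p i r K w (θ + 2 * π) ↔ Hit p i r K w θ := by
  have h0 : dir (θ + 2 * π) = dir θ := by
    have := dir_per θ 1
    rwa [Int.cast_one, one_mul] at this
  constructor
  · intro H
    refine ⟨?_, fun m hm => ?_, fun m hm => ?_, fun m hm => ?_, fun m hm => ?_⟩
    · rw [← sl_dir h0]; exact H.ent
    · rw [← sl_dir (dir_angs_per θ w m)]; exact H.ex m hm
    · rw [← vd_per, ← vd_per (j := w m + 1)]; exact H.op m hm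
    · rw [← vd_per]; exact H.wl m hm
    · rw [← vd_per]; exact H.wr m hm
  · intro H
    refine ⟨?_, fun m hm => ?_, fun m hm => ?_, fun m hm => ?_, fun m hm => ?_⟩
    · rw [sl_dir h0]; exact H.ent
    · rw [sl_dir (dir_angs_per θ w m)]; exact H.ex m hm
    · rw [vd_per, vd_per]; exact H.op m hm
    · rw [vd_per]; exact H.wl m hm
    · rw [vd_per]; exact H.wr m hm

theorem E_per (i j : Fin (n + 3)) (σ r : ℝ) (l : List (Fin (n + 3))) (θ : ℝ) :
    θ + 2 * π ∈ E p i j σ r l ↔ θ ∈ E p i j σ r l := by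
  show (Hit p i r l.length (wl l) (θ + 2 * π) ∧ 0 < σ * vd p (p i) (θ + 2 * π) (wl l) l.length j ∧
    σ * vd p (p i) (θ + 2 * π) (wl l) l.length j < r) ↔ _
  rw [hit_per, vd_per]
  rfl

/-- The map from the directions at `p i` to the directions of arrival at `p j` (on the side `σ`) does
not decrease measures. -/
theorem sum_le (hp : IsConvexPolygon p) (i j : Fin (n + 3)) {σ r : ℝ} (hσ : σ = 1 ∨ σ = -1)
    {B : Set ℝ} (hB : MeasurableSet B) (hper : ∀ x, x + 2 * π ∈ B ↔ x ∈ B) (a : ℝ) :
    volume ((⋃ l : List (Fin (n + 3)), {θ | θ ∈ E p i j σ r l ∧ angs p θ (wl l) l.length ∈ B}) ∩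
      Ioc a (a + 2 * π)) ≤ volume (B ∩ Ioc 0 (2 * π)) := by
  classical
  choose e c he hec using fun l : List (Fin (n + 3)) => angs_affine (p := p) (wl l) l.length
  have hee : ∀ l, e l * e l = 1 := by
    intro l
    rcases he l with h | h <;> rw [h] <;> norm_num
  set F : List (Fin (n + 3)) → Set ℝ := fun l => {ψ | e l * (ψ - c l) ∈ E p i j σ r l} with hF
  have hFm : ∀ l, MeasurableSet (F l) := by
    intro l
    have : Measurable fun ψ : ℝ => e l * (ψ - c l) := by fun_prop
    exact this (E_meas i j σ r l)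
  have hFper : ∀ l x, x + 2 * π ∈ F l ↔ x ∈ F l := by
    intro l x
    show e l * (x + 2 * π - c l) ∈ E p i j σ r l ↔ e l * (x - c l) ∈ E p i j σ r l
    rcases he l with h | h
    · rw [h, ← E_per (p := p) i j σ r l (1 * (x - c l))]
      ring_nf
    · rw [h, ← E_per (p := p) i j σ r l (-1 * (x + 2 * π - c l))]
      ring_nf
  have hdisj : Pairwise (Function.onFun Disjoint F) := by
    intro l1 l2 hne
    rw [Function.onFun, Set.disjoint_left]
    intro ψ h1 h2
    apply hne
    have a1 : angs p (e l1 * (ψ - c l1)) (wl l1) l1.length = ψ := by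
      rw [hec]
      calc e l1 * (e l1 * (ψ - c l1)) + c l1 = (e l1 * e l1) * (ψ - c l1) + c l1 := by ring
        _ = ψ := by rw [hee]; ring
    have a2 : angs p (e l2 * (ψ - c l2)) (wl l2) l2.length = ψ := by
      rw [hec]
      calc e l2 * (e l2 * (ψ - c l2)) + c l2 = (e l2 * e l2) * (ψ - c l2) + c l2 := by ring
        _ = ψ := by rw [hee]; ring
    obtain ⟨H1, b1, b2⟩ := h1
    obtain ⟨H2, b3, b4⟩ := h2
    have hv : |vd p (p i) (e l1 * (ψ - c l1)) (wl l1) l1.length j -
        vd p (p i) (e l2 * (ψ - c l2)) (wl l2) l2.length j| < r := by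
      rw [abs_lt]
      rcases hσ with rfl | rfl
      · constructor <;> linarith
      · constructor <;> linarith
    obtain ⟨h3, h4⟩ := hit_unique hp H1 H2 (by rw [a1, a2]) hv
    refine List.ext_getElem h3 fun m hm1 hm2 => ?_
    have h5 := h4 m hm1
    unfold wl at h5
    rwa [List.getD_eq_getElem _ _ hm1, List.getD_eq_getElem _ _ hm2] at h5
  have hset : ∀ l, {θ | θ ∈ E p i j σ r l ∧ angs p θ (wl l) l.length ∈ B} =
      (fun θ => e l * θ + c l) ⁻¹' (F l ∩ B) := by
    intro l
    ext θ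
    show (θ ∈ E p i j σ r l ∧ angs p θ (wl l) l.length ∈ B) ↔
      (e l * (e l * θ + c l - c l) ∈ E p i j σ r l ∧ e l * θ + c l ∈ B)
    have e1 : e l * (e l * θ + c l - c l) = θ := by
      calc e l * (e l * θ + c l - c l) = (e l * e l) * θ := by ring
        _ = θ := by rw [hee]; ring
    rw [e1, hec]
  calc volume ((⋃ l : List (Fin (n + 3)), {θ | θ ∈ E p i j σ r l ∧
        angs p θ (wl l) l.length ∈ B}) ∩ Ioc a (a + 2 * π))
      ≤ ∑' l, volume ({θ | θ ∈ E p i j σ r l ∧ angs p θ (wl l) l.length ∈ B} ∩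
        Ioc a (a + 2 * π)) := by
        rw [iUnion_inter]
        exact measure_iUnion_le _
    _ = ∑' l, volume (F l ∩ B ∩ Ioc 0 (2 * π)) := by
        refine tsum_congr fun l => ?_
        rw [hset l]
        refine per_pre ((hFm l).inter hB) ?_ (he l) a
        intro x
        rw [mem_inter_iff, mem_inter_iff, hFper, hper]
    _ = volume (⋃ l, (F l ∩ B ∩ Ioc 0 (2 * π))) := by
        refine (measure_iUnion ?_ fun l => ((hFm l).inter hB).inter measurableSet_Ioc).symm
        intro l1 l2 hne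
        exact (hdisj hne).mono (fun x hx => hx.1.1) (fun x hx => hx.1.1)
    _ ≤ volume (B ∩ Ioc 0 (2 * π)) := by
        refine measure_mono (iUnion_subset fun l => ?_)
        exact fun x hx => ⟨hx.1.2, hx.2⟩

end Pool.Agent.U106.BI
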