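import Pool.Agent.U106.BI.Meas
import Pool.Agent.N130.BP.ALLP
import Pool.Agent.N329.BP.FIRST
import Pool.Agent.N681.BP.GOOD
import Pool.Agent.N910.BP.R3

set_option autoImplicit false

/-!
Billiards in convex polygons: orbits starting at a vertex, and the first vertex met by their strips.
-/

namespace Pool.Agent.U106.BI

open Complex Set MeasureTheory Filter Topology Pool.Agent.W780.PG Pool.Agent.W780.BB
  Pool.Agent.TH103.BL Pool.Agent.N557.BP

open scoped Real ComplexConjugate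

variable {n : ℕ} {p : Fin (n + 3) → ℂ}

/-- just after a vertex the line is in the polygon if the direction points inside -/
theorem enter_ev (hp : IsConvexPolygon p) {i : Fin (n + 3)} {θ : ℝ} (h1 : 0 < sl p i θ)
    (h2 : 0 < sl p (i - 1) θ) : ∀ᶠ s in 𝓝[>] (0 : ℝ), p i + s • dir θ ∈ reg p := by
  have h3 : ∀ j, ∀ᶠ s : ℝ in 𝓝[>] 0, 0 < sf p j (p i + s • dir θ) := by
    intro j
    by_cases hji : j = i
    · subst hji
      filter_upwards [self_mem_nhdsWithin] with s hs
      rw [sf_ray, sf_self_left, zero_add]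
      exact mul_pos hs h1
    · by_cases hji' : j = i - 1
      · subst hji'
        filter_upwards [self_mem_nhdsWithin] with s hs
        rw [sf_ray, sf_self_right, zero_add]
        exact mul_pos hs h2
      · have h4 : 0 < sf p j (p i) := by
          refine hp.pos j i (fun h => hji h.symm) fun h => hji' ?_
          rw [h, add_sub_cancel_right]
        have h5 : Continuous fun s : ℝ => sf p j (p i + s • dir θ) :=
          (sf_cont p j).comp (by fun_prop)
        have h6 : Tendsto (fun s : ℝ => sf p j (p i + s • dir θ)) (𝓝[>] 0)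
            (𝓝 (sf p j (p i))) := by
          have h7 := (h5.tendsto 0).mono_left (nhdsWithin_le_nhds (s := Ioi (0 : ℝ)))
          simpa using h7
        exact h6.eventually (lt_mem_nhds h4)
  exact eventually_all.2 h3

theorem ok_vertex (hp : IsConvexPolygon p) {i : Fin (n + 3)} {θ : ℝ} (h1 : 0 < sl p i θ)
    (h2 : 0 < sl p (i - 1) θ) (hg : ∀ z : ℂ,
      (∀ w j, ∀ s : ℝ, 0 < s → z + s • dir θ ≠ uf p w (p j)) ∨
      (∀ w j, ∀ s : ℝ, 0 < s → z - s • dir θ ≠ uf p w (p j))) : Ok p (p i) θ 0 := by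
  refine ⟨?_, fun w j s hs heq => ?_⟩
  · obtain ⟨b, hb, hsub⟩ := (mem_nhdsGT_iff_exists_Ioo_subset' (show (0 : ℝ) < 1 by norm_num)).1
      (enter_ev hp h1 h2)
    exact ⟨b, hb, fun s h3 h4 => hsub ⟨h3, h4⟩⟩
  · rcases hg (p i + (s / 2) • dir θ) with h | h
    · refine h w j (s / 2) (by linarith) ?_
      rw [← heq, add_assoc, ← add_smul]
      congr 2
      ring
    · refine h [] i (s / 2) (by linarith) ?_
      rw [add_sub_cancel_right]
      rfl

theorem srcs_add (hp : IsConvexPolygon p) (z : ℂ) (θ s : ℝ) (u : ℕ → Fin (n + 3)) (k : ℕ) :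
    srcs p (z + s • dir θ) u k = srcs p z u k + s • dir (angs p θ u k) := by
  induction k with
  | zero => rfl
  | succ k ih =>
    show rf p (u k) (srcs p (z + s • dir θ) u k) = rf p (u k) (srcs p z u k) +
      s • dir (2 * tau p (u k) - angs p θ u k)
    rw [ih, rf_ray hp]

theorem orb_shift (hp : IsConvexPolygon p) {z : ℂ} {θ : ℝ} {u : ℕ → Fin (n + 3)} {t : ℕ → ℝ}
    (O : Orb p z θ u t) {s0 : ℝ} (h0 : 0 < s0) (h1 : s0 < t 0) :
    Orb p (z + s0 • dir θ) θ u (fun k => t k - s0) := by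
  refine ⟨by show 0 < t 0 - s0; linarith, fun k => by show t k - s0 < t (k + 1) - s0; linarith [O.mono k],
    fun k => ?_, fun s h2 h3 => ?_, fun k s h2 h3 => ?_⟩
  · rw [srcs_add hp, add_assoc, ← add_smul, add_sub_cancel]
    exact O.hit k
  · have h3' : s < t 0 - s0 := h3
    rw [add_assoc, ← add_smul]
    exact O.ins0 _ (by linarith) (by linarith)
  · have h2' : t k - s0 < s := h2
    have h3' : s < t (k + 1) - s0 := h3
    rw [srcs_add hp, add_assoc, ← add_smul]
    exact O.ins k _ (by linarith) (by linarith)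

/-- The first vertex in the strip of half width `r` about the line from `p i` in the direction `θ`. -/
theorem cover (hp : IsConvexPolygon p) {i : Fin (n + 3)} {θ r : ℝ} (hr : 0 < r)
    (h1 : 0 < sl p i θ) (h2 : 0 < sl p (i - 1) θ) (hg : ∀ z : ℂ,
      (∀ w j, ∀ s : ℝ, 0 < s → z + s • dir θ ≠ uf p w (p j)) ∨
      (∀ w j, ∀ s : ℝ, 0 < s → z - s • dir θ ≠ uf p w (p j)))
    (hA : ∀ z ∈ reg p, ∀ (u : ℕ → Fin (n + 3)) (t : ℕ → ℝ), Orb p z θ u t →
      ∀ ε : ℝ, 0 < ε → ∃ (K : ℕ) (j : Fin (n + 3)), ‖pt p z θ u t K - p j‖ < ε)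
    (h3 : ∀ q, q ≠ i → r ≤ |V p (p i) θ q|) :
    ∃ (u : ℕ → Fin (n + 3)) (t : ℕ → ℝ) (K : ℕ) (j : Fin (n + 3)) (σ : ℝ), Orb p (p i) θ u t ∧
      (σ = 1 ∨ σ = -1) ∧ Hit p i r K u θ ∧ 0 < σ * vd p (p i) θ u K j ∧
      σ * vd p (p i) θ u K j < r ∧ sl p j (angs p θ u K) < 0 ∧ sl p (j - 1) (angs p θ u K) < 0 := by
  obtain ⟨u, t, O⟩ := exists_orb hp (ok_vertex hp h1 h2 hg)
  have hs0 : 0 < t 0 / 2 := by have := O.pos; linarith
  have hs1 : t 0 / 2 < t 0 := by have := O.pos; linarith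
  have O' := orb_shift hp O hs0 hs1
  have hz0 : p i + (t 0 / 2) • dir θ ∈ reg p := O.ins0 _ hs0 hs1
  have hall : ∀ ε : ℝ, 0 < ε → ∃ (K : ℕ) (j : Fin (n + 3)), ‖pt p (p i) θ u t K - p j‖ < ε := by
    intro ε hε
    obtain ⟨K, j, h⟩ := hA _ hz0 u _ O' ε hε
    refine ⟨K, j, ?_⟩
    have e : pt p (p i + (t 0 / 2) • dir θ) θ u (fun k => t k - t 0 / 2) K = pt p (p i) θ u t K := by
      unfold pt
      rw [srcs_add hp, add_assoc, ← add_smul, add_sub_cancel]
    rwa [e] at h
  obtain ⟨K, hW, j, hj, hjd⟩ := Pool.Agent.N329.BP.t_first n p hp (p i) θ u t O hall r hr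
  have hopp := my_opp n p hp (p i) θ u t O
  have hH : Hit p i r K u θ := ⟨h1, fun m _ => sl_neg hp O m, fun m _ => hopp m,
    fun m hm => (hW m hm).1, fun m hm => (hW m hm).2⟩
  have hne : vd p (p i) θ u K j ≠ 0 := by
    intro h0
    have h4 := hopp K
    rcases hj with rfl | rfl
    · rw [h0, zero_mul] at h4; exact lt_irrefl _ h4
    · rw [h0, mul_zero] at h4; exact lt_irrefl _ h4
  have hK : K ≠ 0 := by
    rintro rfl
    have h4 : vd p (p i) θ u 0 j = V p (p i) θ j := rfl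
    by_cases hji : j = i
    · apply hne
      rw [h4, hji]
      unfold V
      rw [sub_self, mul_zero, zero_im]
    · have := h3 j hji
      rw [h4] at hjd
      linarith
  obtain ⟨m, rfl⟩ : ∃ m, K = m + 1 := ⟨K - 1, by omega⟩
  obtain ⟨a1, a2, a3, a4⟩ := hH.enter hp (Nat.lt_succ_self m)
  have hex := near_exit hp a1 a2 a3 a4 (i := j) hjd
  rcases lt_or_gt_of_ne hne with h | h
  · refine ⟨u, t, m + 1, j, -1, O, Or.inr rfl, hH, by linarith, ?_, hex⟩
    rw [abs_of_neg h] at hjd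
    linarith
  · refine ⟨u, t, m + 1, j, 1, O, Or.inl rfl, hH, by linarith, ?_, hex⟩
    rw [abs_of_pos h] at hjd
    linarith

theorem vd_congr' {z : ℂ} {θ : ℝ} {u u' : ℕ → Fin (n + 3)} {m : ℕ} (h : ∀ k < m, u k = u' k)
    (j : Fin (n + 3)) : vd p z θ u m j = vd p z θ u' m j := by
  unfold vd
  rw [srcs_congr h, angs_congr h]

/-- membership in the sets `E` -/
theorem mem_E {i j : Fin (n + 3)} {θ r σ : ℝ} {u : ℕ → Fin (n + 3)} {K : ℕ}
    (H : Hit p i r K u θ) (h1 : 0 < σ * vd p (p i) θ u K j) (h2 : σ * vd p (p i) θ u K j < r) :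
    θ ∈ E p i j σ r ((List.range K).map u) ∧
      angs p θ (wl ((List.range K).map u)) ((List.range K).map u).length = angs p θ u K := by
  set l := (List.range K).map u with hl
  have hlen : l.length = K := by rw [hl, List.length_map, List.length_range]
  have hw : ∀ k < K, wl l k = u k := by
    intro k hk
    unfold wl
    rw [List.getD_eq_getElem _ _ (by rw [hlen]; exact hk)]
    simp [hl]
  have hw' : ∀ m ≤ K, ∀ k < m, wl l k = u k := fun m hm k hk => hw k (by omega)
  refine ⟨⟨⟨H.ent, ?_, ?_, ?_, ?_⟩, ?_, ?_⟩, ?_⟩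
  · intro m hm
    rw [hlen] at hm
    rw [hw m hm, angs_congr (hw' m hm.le)]
    exact H.ex m hm
  · intro m hm
    rw [hlen] at hm
    rw [hw m hm, vd_congr' (hw' m hm.le), vd_congr' (hw' m hm.le)]
    exact H.op m hm
  · intro m hm
    rw [hlen] at hm
    rw [hw m hm, vd_congr' (hw' m hm.le)]
    exact H.wl m hm
  · intro m hm
    rw [hlen] at hm
    rw [hw m hm, vd_congr' (hw' m hm.le)]
    exact H.wr m hm
  · rw [hlen, vd_congr' hw]; exact h1
  · rw [hlen, vd_congr' hw]; exact h2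
  · rw [hlen, angs_congr hw]

end Pool.Agent.U106.BI
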