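import Pool.Agent.U106.BI.Step
import Pool.Agent.TH103.BL.Loc
import Pool.Agent.N793.BP.R2

set_option autoImplicit false

/-!
Billiards in convex polygons: one-sided limits at the vertices imply two-sided limits for almost all
directions.
-/

namespace Pool.Agent.U106.BI

open Complex Set MeasureTheory Filter Topology Pool.Agent.W780.PG Pool.Agent.W780.BB
  Pool.Agent.TH103.BL Pool.Agent.N557.BP

open scoped Real ComplexConjugate

variable {n : ℕ} {p : Fin (n + 3) → ℂ}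

theorem inner_small (hp : IsConvexPolygon p) {j : Fin (n + 3)} {θ s0 : ℝ}
    (h : p j + s0 • dir θ ∈ reg p) {r : ℝ} (hr : 0 < r) :
    ∃ s : ℝ, |s| < r ∧ p j + s • dir θ ∈ reg p := by
  obtain ⟨t, ht0, ht1, htr⟩ : ∃ t : ℝ, 0 < t ∧ t ≤ 1 ∧ t * |s0| < r := by
    refine ⟨min 1 (r / (|s0| + 1)), by positivity, min_le_left _ _, ?_⟩
    calc min 1 (r / (|s0| + 1)) * |s0| ≤ r / (|s0| + 1) * |s0| :=
          mul_le_mul_of_nonneg_right (min_le_right _ _) (abs_nonneg _)
      _ < r := by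
          rw [div_mul_eq_mul_div, div_lt_iff₀ (by positivity)]
          nlinarith [abs_nonneg s0]
  refine ⟨t * s0, by rw [abs_mul, abs_of_pos ht0]; exact htr, fun k => ?_⟩
  have h1 : 0 < sf p k (p j + s0 • dir θ) := h k
  have h2 : 0 ≤ sf p k (p j) := vert_mem hp j k
  show 0 < sf p k _
  rw [sf_ray] at h1 ⊢
  have e : sf p k (p j) + t * s0 * sl p k θ = (1 - t) * sf p k (p j) +
      t * (sf p k (p j) + s0 * sl p k θ) := by ring
  rw [e]
  have h3 := mul_pos ht0 h1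
  have h4 := mul_nonneg (show 0 ≤ 1 - t by linarith) h2
  linarith

/-- From one-sided limits in balls to one-sided limits in strips. -/
theorem strip_of_ball (hp : IsConvexPolygon p) {f : ℂ × ℝ → ℝ} (hI : IsInvariantFun p f)
    {j : Fin (n + 3)} {θ σ l η r s0 : ℝ} (hσ : σ = 1 ∨ σ = -1) (hr : 0 < r)
    (h0 : p j + s0 • dir θ ∈ reg p)
    (h : ∀ᵐ z : ℂ, z ∈ region p → ‖z - p j‖ < r → 0 < σ * sd p j (z, θ) → |f (z, θ) - l| ≤ η) :
    ∃ r' : ℝ, 0 < r' ∧ ∀ᵐ z : ℂ, z ∈ reg p → 0 < σ * sd p j (z, θ) → σ * sd p j (z, θ) < r' →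
      |f (z, θ) - l| ≤ η := by
  have hrr := region_eq hp
  obtain ⟨s1, hs1, hP⟩ := inner_small hp h0 (half_pos hr)
  obtain ⟨ε, hε, hball⟩ := Metric.isOpen_iff.1 (reg_open hp) _ hP
  have hdd : conj (dir θ) * dir θ = 1 := Pool.Agent.N262.BP.conj_dir_mul θ
  refine ⟨min ε (r / 2), lt_min hε (half_pos hr), ?_⟩
  have hq : ∀ᵐ z : ℂ, ∀ q : ℚ, z + (q : ℝ) • dir θ ∈ region p →
      ‖z + (q : ℝ) • dir θ - p j‖ < r → 0 < σ * sd p j (z + (q : ℝ) • dir θ, θ) →
      |f (z + (q : ℝ) • dir θ, θ) - l| ≤ η := by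
    rw [ae_all_iff]
    intro q
    exact (measurePreserving_add_right (volume : Measure ℂ)
      ((q : ℝ) • dir θ)).quasiMeasurePreserving.ae h
  filter_upwards [hq] with z hz hzr h1 h2
  have hb : |sd p j (z, θ)| < min ε (r / 2) := by
    rcases hσ with rfl | rfl
    · rw [one_mul] at h1 h2
      rw [abs_of_pos h1]; exact h2
    · rw [abs_of_neg (by linarith)]; linarith
  -- the point of the line close to the vertex
  set c : ℂ := conj (dir θ) * (z - p j) with hc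
  have hcz : z - p j = c * dir θ := by
    rw [hc]
    linear_combination (-(z - p j)) * hdd
  have hcim : c.im = sd p j (z, θ) := rfl
  have hkey : ∀ τ : ℝ, z + τ • dir θ - (p j + s1 • dir θ) = (c + τ - s1) * dir θ := by
    intro τ
    rw [real_smul, real_smul]
    linear_combination hcz
  have hnorm : ‖z + (s1 - c.re) • dir θ - (p j + s1 • dir θ)‖ < min ε (r / 2) := by
    rw [hkey, norm_mul, norm_dir, mul_one]
    have e : c + ((s1 - c.re : ℝ) : ℂ) - s1 = (c.im : ℂ) * I := by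
      apply Complex.ext
      · simp
      · simp
    rw [e, norm_mul, norm_I, mul_one, norm_real, Real.norm_eq_abs, hcim]
    exact hb
  have hcont : Continuous fun τ : ℝ => ‖z + τ • dir θ - (p j + s1 • dir θ)‖ := by fun_prop
  have hev : ∀ᶠ τ in 𝓝 (s1 - c.re), ‖z + τ • dir θ - (p j + s1 • dir θ)‖ < min ε (r / 2) :=
    (hcont.tendsto _).eventually_lt_const hnorm
  obtain ⟨δ, hδ, hδb⟩ := Metric.eventually_nhds_iff.1 hev
  obtain ⟨q, hq1, hq2⟩ := exists_rat_btwn (show s1 - c.re < s1 - c.re + δ by linarith)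
  have h3 := hδb (y := (q : ℝ)) (by rw [Real.dist_eq, abs_of_pos (by linarith)]; linarith)
  have h4 : z + (q : ℝ) • dir θ ∈ reg p := by
    apply hball
    rw [mem_ball_iff_norm]
    exact h3.trans_le (min_le_left _ _)
  have h5 : ‖z + (q : ℝ) • dir θ - p j‖ < r := by
    calc ‖z + (q : ℝ) • dir θ - p j‖ = ‖(z + (q : ℝ) • dir θ - (p j + s1 • dir θ)) + s1 • dir θ‖ := by
          congr 1; ring
      _ ≤ ‖z + (q : ℝ) • dir θ - (p j + s1 • dir θ)‖ + ‖s1 • dir θ‖ := norm_add_le _ _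
      _ < r := by
          rw [norm_smul, norm_dir, mul_one, Real.norm_eq_abs]
          have := h3.trans_le (min_le_right _ _)
          linarith
  have h6 : sd p j (z + (q : ℝ) • dir θ, θ) = sd p j (z, θ) := by
    unfold sd
    simp only
    have e : conj (dir θ) * (z + (q : ℝ) • dir θ - p j) = conj (dir θ) * (z - p j) + ((q : ℝ) : ℂ) := by
      rw [real_smul]
      linear_combination ((q : ℝ) : ℂ) * hdd
    rw [e, add_im, ofReal_im, add_zero]
  have h7 := hz q (by rw [hrr]; exact h4) h5 (by rw [h6]; exact h1)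
  rw [hI.free z θ q (by rw [hrr]; exact hzr) (by rw [hrr]; exact h4)]
  exact h7

/-- strips and rational values -/
theorem sg_of_strip {f : ℂ × ℝ → ℝ} {j : Fin (n + 3)} {θ σ l η r : ℝ} (hη : 0 < η)
    (h : ∀ᵐ z : ℂ, z ∈ reg p → 0 < σ * sd p j (z, θ) → σ * sd p j (z, θ) < r →
      |f (z, θ) - l| ≤ η / 2) : θ ∈ SG p f j σ η r := by
  obtain ⟨q, hq1, hq2⟩ := exists_rat_btwn (show l < l + η / 2 by linarith)
  refine ⟨q, ?_⟩
  rw [measure_eq_zero_iff_ae_notMem]
  filter_upwards [h] with z hz hbad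
  obtain ⟨h1, h2, h3, h4⟩ := hbad
  have h5 := hz h1 h2 h3
  have h6 : |f (z, θ) - q| ≤ |f (z, θ) - l| + |l - q| := by
    have e : f (z, θ) - q = (f (z, θ) - l) + (l - q) := by ring
    rw [e]
    exact abs_add_le _ _
  have h7 : |l - (q : ℝ)| < η / 2 := by
    rw [abs_lt]; constructor <;> linarith
  have h8 : η < |f (z, θ) - q| := h4
  linarith

/-- the one-sided limits at the vertex `p i` -/
def SidedAt (p : Fin (n + 3) → ℂ) (f : ℂ × ℝ → ℝ) (i : Fin (n + 3)) (θ : ℝ) : Prop :=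
  (∃ l : ℝ, ∀ η : ℝ, 0 < η → ∃ r : ℝ, 0 < r ∧ ∀ᵐ z : ℂ, z ∈ region p → ‖z - p i‖ < r →
    0 < sd p i (z, θ) → |f (z, θ) - l| ≤ η) ∧
  (∃ l : ℝ, ∀ η : ℝ, 0 < η → ∃ r : ℝ, 0 < r ∧ ∀ᵐ z : ℂ, z ∈ region p → ‖z - p i‖ < r →
    sd p i (z, θ) < 0 → |f (z, θ) - l| ≤ η)

theorem sg_of_sided (hp : IsConvexPolygon p) {f : ℂ × ℝ → ℝ} (hI : IsInvariantFun p f)
    {j : Fin (n + 3)} {θ s0 σ η : ℝ} (hσ : σ = 1 ∨ σ = -1) (h0 : p j + s0 • dir θ ∈ reg p)
    (h : SidedAt p f j θ) (hη : 0 < η) : ∃ r : ℝ, 0 < r ∧ θ ∈ SG p f j σ η r := by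
  have key : ∃ l r : ℝ, 0 < r ∧ ∀ᵐ z : ℂ, z ∈ region p → ‖z - p j‖ < r →
      0 < σ * sd p j (z, θ) → |f (z, θ) - l| ≤ η / 2 := by
    rcases hσ with rfl | rfl
    · obtain ⟨l, hl⟩ := h.1
      obtain ⟨r, hr, hae⟩ := hl (η / 2) (by positivity)
      refine ⟨l, r, hr, ?_⟩
      filter_upwards [hae] with z hz h1 h2 h3
      exact hz h1 h2 (by linarith)
    · obtain ⟨l, hl⟩ := h.2
      obtain ⟨r, hr, hae⟩ := hl (η / 2) (by positivity)
      refine ⟨l, r, hr, ?_⟩
      filter_upwards [hae] with z hz h1 h2 h3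
      exact hz h1 h2 (by linarith)
  obtain ⟨l, r, hr, hae⟩ := key
  obtain ⟨r', hr', h'⟩ := strip_of_ball hp hI hσ hr h0 hae
  exact ⟨r', hr', sg_of_strip hη h'⟩

theorem sided_of_vl {f : ℂ × ℝ → ℝ} {i : Fin (n + 3)} {θ : ℝ} (h : VL p f i θ) :
    SidedAt p f i θ := by
  obtain ⟨l, hl⟩ := h
  constructor
  · refine ⟨l, fun η hη => ?_⟩
    obtain ⟨r, hr, hae⟩ := hl η hη
    exact ⟨r, hr, by filter_upwards [hae] with z hz h1 h2 _ using hz h1 h2⟩
  · refine ⟨l, fun η hη => ?_⟩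
    obtain ⟨r, hr, hae⟩ := hl η hη
    exact ⟨r, hr, by filter_upwards [hae] with z hz h1 h2 _ using hz h1 h2⟩

/-- One-sided limits at the vertices, for almost every direction. -/
def SidedVertexLimits (p : Fin (n + 3) → ℂ) (f : ℂ × ℝ → ℝ) : Prop :=
  ∀ᵐ θ : ℝ, ∀ i, (∃ s : ℝ, p i + s • dir θ ∈ region p) → SidedAt p f i θ

theorem out_of_sided (hp : IsConvexPolygon p) {f : ℂ × ℝ → ℝ} (hI : IsInvariantFun p f)
    (h : SidedVertexLimits p f) : OutLimits p f := by
  intro j σ hσ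
  filter_upwards [h] with θ hθ h1 h2 η hη
  obtain ⟨s, hs⟩ := Pool.Agent.N700.BP.inner hp j (σ := -1) (θ := θ) (by linarith) (by linarith)
  exact sg_of_sided hp hI hσ hs (hθ j ⟨s, by rw [region_eq hp]; exact hs⟩) hη

theorem enter_limits (hp : IsConvexPolygon p) {f : ℂ × ℝ → ℝ} (hf : Measurable f)
    (hI : IsInvariantFun p f) (hO : OutLimits p f) (i : Fin (n + 3)) :
    ∀ᵐ θ : ℝ, 0 < sl p i θ → 0 < sl p (i - 1) θ → VL p f i θ := by
  filter_upwards [ae_all_iff.2 fun k => step_one hp hf hI hO i k] with θ hθ h1 h2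
  rw [← Pool.Agent.N910.BP.ee_vl hp]
  intro k
  obtain ⟨m, q, h⟩ := hθ k h1 h2
  exact ⟨m, q, h⟩

theorem sl_pi (i : Fin (n + 3)) (θ : ℝ) : sl p i (θ + π) = - sl p i θ := by
  unfold sl
  rw [dir_pi, mul_neg, neg_im]

theorem exit_limits (hp : IsConvexPolygon p) {f : ℂ × ℝ → ℝ} (hf : Measurable f)
    (hI : IsInvariantFun p f) (hO : OutLimits p f) (i : Fin (n + 3)) :
    ∀ᵐ θ : ℝ, sl p i θ < 0 → sl p (i - 1) θ < 0 → VL p f i θ := by
  set g : ℂ × ℝ → ℝ := fun x => f (x.1, x.2 + π) with hg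
  have hgI : IsInvariantFun p g := rev_inv hI
  have hgm : Measurable g := hf.comp (measurable_fst.prodMk (measurable_snd.add_const π))
  have hVL : ∀ j φ, VL p f j (φ + π) ↔ VL p g j φ := fun j φ => Iff.rfl
  have hOg : OutLimits p g := by
    intro j σ hσ
    have h1 := (measurePreserving_add_right (volume : Measure ℝ) π).quasiMeasurePreserving.ae
      (enter_limits hp hf hI hO j)
    filter_upwards [h1] with φ hφ h2 h3 η hη
    obtain ⟨s, hs⟩ := Pool.Agent.N700.BP.inner hp j (σ := -1) (θ := φ) (by linarith) (by linarith)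
    refine sg_of_sided hp hgI hσ hs (sided_of_vl ((hVL j φ).1 (hφ ?_ ?_))) hη
    · rw [sl_pi]; linarith
    · rw [sl_pi]; linarith
  have h1 := (measurePreserving_add_right (volume : Measure ℝ) (-π)).quasiMeasurePreserving.ae
    (enter_limits hp hgm hgI hOg i)
  filter_upwards [h1] with θ hθ h2 h3
  have e : ∀ k : Fin (n + 3), sl p k (θ + -π) = - sl p k θ := by
    intro k
    have := sl_pi (p := p) k (θ + -π)
    rw [neg_add_cancel_right] at this
    linarith
  have := (hVL i (θ + -π)).2 (hθ (by rw [e]; linarith) (by rw [e]; linarith))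
  rwa [neg_add_cancel_right] at this

/-- For almost all directions the limits at the vertices exist. -/
theorem all_limits (hp : IsConvexPolygon p) (hirr : ∀ i, Irrational (ang p i / π))
    {f : ℂ × ℝ → ℝ} (hf : Measurable f) (hI : IsInvariantFun p f) (hO : OutLimits p f)
    (i : Fin (n + 3)) : ∀ᵐ θ : ℝ, VL p f i θ := by
  have h1 : ∀ᵐ θ : ℝ, 0 < sl p i θ * sl p (i - 1) θ → VL p f i θ := by
    filter_upwards [enter_limits hp hf hI hO i, exit_limits hp hf hI hO i] with θ h1 h2 h3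
    rcases lt_trichotomy (sl p i θ) 0 with h | h | h
    · exact h2 h (by
        by_contra hc
        push Not at hc
        exact absurd h3 (not_lt.2 (mul_nonpos_of_nonpos_of_nonneg h.le hc)))
    · rw [h, zero_mul] at h3
      exact absurd h3 (lt_irrefl _)
    · exact h1 h ((mul_pos_iff_of_pos_left h).1 h3)
  have hEm := Pool.Agent.N910.BP.ee_meas hp hf i
  have hper : ∀ θ, θ + 2 * π ∈ Pool.Agent.N910.BP.EE p f i ↔ θ ∈ Pool.Agent.N910.BP.EE p f i := by
    intro θ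
    have : ∀ (k m : ℕ) (q : ℚ), ((fun z : ℂ => (z, θ + 2 * π)) ⁻¹' Pool.Agent.N910.BP.Bad p f i k m q) =
        ((fun z : ℂ => (z, θ)) ⁻¹' Pool.Agent.N910.BP.Bad p f i k m q) := by
      intro k m q
      ext z
      show (z ∈ reg p ∧ ‖z - p i‖ < 1 / ((m : ℝ) + 1) ∧
        1 / ((k : ℝ) + 1) < |f (z, θ + 2 * π) - q|) ↔ (z ∈ reg p ∧ ‖z - p i‖ < 1 / ((m : ℝ) + 1) ∧
        1 / ((k : ℝ) + 1) < |f (z, θ) - q|)
      rw [hI.periodic]
    show (∀ k : ℕ, ∃ m : ℕ, ∃ q : ℚ,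
      volume ((fun z : ℂ => (z, θ + 2 * π)) ⁻¹' Pool.Agent.N910.BP.Bad p f i k m q) = 0) ↔
      (∀ k : ℕ, ∃ m : ℕ, ∃ q : ℚ,
      volume ((fun z : ℂ => (z, θ)) ⁻¹' Pool.Agent.N910.BP.Bad p f i k m q) = 0)
    simp only [this]
  have hone : ∀ a : Fin (n + 3), (i = a ∨ i = a + 1) → ∀ᵐ θ : ℝ,
      θ ∉ Pool.Agent.N910.BP.EE p f i → 2 * tau p a - θ ∉ Pool.Agent.N910.BP.EE p f i := by
    intro a hia
    filter_upwards [h1, ae_sl hp i, ae_sl hp (i - 1)] with θ e1 e2 e3 hθ hE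
    rw [Pool.Agent.N910.BP.ee_vl hp] at hθ hE
    have h2 : sl p i θ * sl p (i - 1) θ < 0 := by
      rcases lt_trichotomy (sl p i θ * sl p (i - 1) θ) 0 with h | h | h
      · exact h
      · exact absurd h (mul_ne_zero e2 e3)
      · exact absurd (e1 h) hθ
    exact hθ (Pool.Agent.N793.BP.t_r2 n p hp f hf hI i a hia θ h2 hE)
  have htwo : ∀ a : Fin (n + 3), (i = a ∨ i = a + 1) → ∀ᵐ θ : ℝ,
      (2 * tau p a - θ ∈ Pool.Agent.N910.BP.EE p f i ↔ θ ∈ Pool.Agent.N910.BP.EE p f i) := by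
    intro a hia
    have h2 : ∀ᵐ θ : ℝ, 2 * tau p a - θ ∉ Pool.Agent.N910.BP.EE p f i →
        2 * tau p a - (2 * tau p a - θ) ∉ Pool.Agent.N910.BP.EE p f i :=
      (Measure.measurePreserving_sub_left (volume : Measure ℝ)
        (2 * tau p a)).quasiMeasurePreserving.ae (hone a hia)
    filter_upwards [hone a hia, h2] with θ e1 e2
    rw [sub_sub_cancel] at e2
    constructor
    · intro h
      by_contra h3
      exact e1 h3 h
    · intro h
      by_contra h3
      exact e2 h3 h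
  obtain ⟨k, hk⟩ := Pool.Agent.W337.BB.tau_th n p hp i
  have hirr2 : Irrational ((tau p i - tau p (i - 1)) / π) := by
    rw [hk]
    have : (π - ang p i + 2 * k * π) / π = ((1 + 2 * k : ℤ) : ℝ) - ang p i / π := by
      have := Real.pi_ne_zero
      field_simp
      push_cast
      ring
    rw [this]
    exact (hirr i).intCast_sub _
  rcases Pool.Agent.W363.BB.rot (Pool.Agent.N910.BP.EE p f i) (tau p i) (tau p (i - 1)) hEm hper
    (htwo i (Or.inl rfl)) (htwo (i - 1) (Or.inr (by rw [sub_add_cancel]))) hirr2 with h | h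
  · exfalso
    set U : Set ℝ := {θ | 0 < sl p i θ} ∩ {θ | 0 < sl p (i - 1) θ} with hU
    have hUo : IsOpen U :=
      (isOpen_lt continuous_const (sl_cont i)).inter
        (isOpen_lt continuous_const (sl_cont (i - 1)))
    have hUn : U.Nonempty := by
      obtain ⟨z, hz, -⟩ := near_vertex hp i one_pos
      have hpol : z = p i + ‖z - p i‖ • dir (arg (z - p i)) := by
        unfold dir
        rw [real_smul, Complex.norm_mul_exp_arg_mul_I]
        ring
      have s1 : sf p i (p i) = 0 := sf_self_left i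
      have s2 : sf p (i - 1) (p i) = 0 := sf_self_right i
      have a1 : 0 < sf p i z := hz i
      have a2 : 0 < sf p (i - 1) z := hz (i - 1)
      rw [hpol, sf_ray, s1, zero_add] at a1
      rw [hpol, sf_ray, s2, zero_add] at a2
      refine ⟨arg (z - p i), ?_, ?_⟩
      · by_contra hc
        exact absurd a1 (not_lt.2 (mul_nonpos_of_nonneg_of_nonpos (norm_nonneg _) (not_lt.1 hc)))
      · by_contra hc
        exact absurd a2 (not_lt.2 (mul_nonpos_of_nonneg_of_nonpos (norm_nonneg _) (not_lt.1 hc)))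
    have hU0 : volume U = 0 := by
      rw [measure_eq_zero_iff_ae_notMem]
      have h2 := measure_eq_zero_iff_ae_notMem.1 h
      filter_upwards [h1, h2] with θ e1 e2 hθ
      exact e2 ((Pool.Agent.N910.BP.ee_vl hp i θ).2 (e1 (mul_pos hθ.1 hθ.2)))
    exact (hUo.measure_pos volume hUn).ne' hU0
  · have h2 := measure_eq_zero_iff_ae_notMem.1 h
    filter_upwards [h2] with θ e1
    rw [← Pool.Agent.N910.BP.ee_vl hp]
    by_contra hc
    exact e1 hc

end Pool.Agent.U106.BI
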