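import Pool.Agent.U106.BI.Orbv

set_option autoImplicit false

/-!
Billiards in convex polygons: one-sided limits at the vertices for the directions which leave the
polygon imply two-sided limits for almost all directions which enter it.
-/

namespace Pool.Agent.U106.BI

open Complex Set MeasureTheory Filter Topology Pool.Agent.W780.PG Pool.Agent.W780.BB
  Pool.Agent.TH103.BL Pool.Agent.N557.BP

open scoped Real ComplexConjugate

variable {n : ℕ} {p : Fin (n + 3) → ℂ}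

/-- the states in the strip of width `r` beside the line through the vertex `p j` at which the
function is far from `q` -/
def SB (p : Fin (n + 3) → ℂ) (f : ℂ × ℝ → ℝ) (j : Fin (n + 3)) (σ η r q : ℝ) : Set (ℂ × ℝ) :=
  {x | x.1 ∈ reg p ∧ 0 < σ * sd p j x ∧ σ * sd p j x < r ∧ η < |f x - q|}

/-- the directions for which the function is almost constant in the strip -/
def SG (p : Fin (n + 3) → ℂ) (f : ℂ × ℝ → ℝ) (j : Fin (n + 3)) (σ η r : ℝ) : Set ℝ :=
  {θ | ∃ q : ℚ, volume ((fun z : ℂ => (z, θ)) ⁻¹' SB p f j σ η r q) = 0}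

theorem sb_meas (hp : IsConvexPolygon p) {f : ℂ × ℝ → ℝ} (hf : Measurable f)
    (j : Fin (n + 3)) (σ η r q : ℝ) : MeasurableSet (SB p f j σ η r q) := by
  have h1 : MeasurableSet {x : ℂ × ℝ | x.1 ∈ reg p} :=
    measurable_fst (reg_open hp).measurableSet
  have h2 : MeasurableSet {x : ℂ × ℝ | 0 < σ * sd p j x} :=
    measurableSet_lt measurable_const ((sd_cont p j).measurable.const_mul σ)
  have h3 : MeasurableSet {x : ℂ × ℝ | σ * sd p j x < r} :=
    measurableSet_lt ((sd_cont p j).measurable.const_mul σ) measurable_const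
  have h4 : MeasurableSet {x : ℂ × ℝ | η < |f x - q|} :=
    measurableSet_lt measurable_const (hf.sub_const _).abs
  exact h1.inter (h2.inter (h3.inter h4))

theorem sg_meas (hp : IsConvexPolygon p) {f : ℂ × ℝ → ℝ} (hf : Measurable f)
    (j : Fin (n + 3)) (σ η r : ℝ) : MeasurableSet (SG p f j σ η r) := by
  have h1 : SG p f j σ η r = ⋃ q : ℚ,
      {θ | volume ((fun z : ℂ => (z, θ)) ⁻¹' SB p f j σ η r q) = 0} := by
    ext θ
    simp only [SG, mem_iUnion]
    rfl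
  rw [h1]
  exact MeasurableSet.iUnion fun q =>
    measurable_measure_prodMk_right (sb_meas hp hf j σ η r q) (measurableSet_singleton 0)

theorem sd_per (j : Fin (n + 3)) (z : ℂ) (θ : ℝ) : sd p j (z, θ + 2 * π) = sd p j (z, θ) := by
  have h0 : dir (θ + 2 * π) = dir θ := by
    have := dir_per θ 1
    rwa [Int.cast_one, one_mul] at this
  unfold sd
  simp only
  rw [h0]

theorem sg_per {f : ℂ × ℝ → ℝ} (hI : IsInvariantFun p f) (j : Fin (n + 3)) (σ η r θ : ℝ) :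
    θ + 2 * π ∈ SG p f j σ η r ↔ θ ∈ SG p f j σ η r := by
  have : ∀ q : ℚ, ((fun z : ℂ => (z, θ + 2 * π)) ⁻¹' SB p f j σ η r q) =
      ((fun z : ℂ => (z, θ)) ⁻¹' SB p f j σ η r q) := by
    intro q
    ext z
    show (z ∈ reg p ∧ 0 < σ * sd p j (z, θ + 2 * π) ∧ σ * sd p j (z, θ + 2 * π) < r ∧
      η < |f (z, θ + 2 * π) - q|) ↔ (z ∈ reg p ∧ 0 < σ * sd p j (z, θ) ∧ σ * sd p j (z, θ) < r ∧
      η < |f (z, θ) - q|)
    rw [hI.periodic, sd_per]
  show (∃ q : ℚ, volume ((fun z : ℂ => (z, θ + 2 * π)) ⁻¹' SB p f j σ η r q) = 0) ↔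
    (∃ q : ℚ, volume ((fun z : ℂ => (z, θ)) ⁻¹' SB p f j σ η r q) = 0)
  simp only [this]

theorem sg_mono {f : ℂ × ℝ → ℝ} {j : Fin (n + 3)} {σ η r r' : ℝ} (h : r' ≤ r) :
    SG p f j σ η r ⊆ SG p f j σ η r' := by
  rintro θ ⟨q, hq⟩
  refine ⟨q, measure_mono_null ?_ hq⟩
  rintro z ⟨h1, h2, h3, h4⟩
  exact ⟨h1, h2, lt_of_lt_of_le h3 h, h4⟩

/-- Transport of the values near an arrival at a vertex back to the starting vertex. -/
theorem transport (hp : IsConvexPolygon p) {f : ℂ × ℝ → ℝ} (hI : IsInvariantFun p f)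
    {i j : Fin (n + 3)} {θ r σ η : ℝ} {u : ℕ → Fin (n + 3)} {t : ℕ → ℝ} {K : ℕ}
    (O : Orb p (p i) θ u t) (h1 : 0 < σ * vd p (p i) θ u K j) (h2 : σ * vd p (p i) θ u K j < r)
    (hS : angs p θ u K ∈ SG p f j σ η r) :
    ∃ (m : ℕ) (q : ℚ), volume {z : ℂ | z ∈ reg p ∧ ‖z - p i‖ < 1 / ((m : ℝ) + 1) ∧
      η < |f (z, θ) - q|} = 0 := by
  obtain ⟨q, hq⟩ := hS
  have htp := tp_lt O K
  obtain ⟨s, hs1, hs2⟩ : ∃ s, tp t K < s ∧ s < t K := ⟨(tp t K + t K) / 2, by linarith, by linarith⟩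
  set l := (List.range K).map u with hl
  have hch : Ch p l (p i) (p i + s • dir θ) := orb_ch hp O hs1 hs2
  have hc : Continuous fun z : ℂ => z + s • dir θ := by fun_prop
  -- conditions near the vertex
  have e1 : ∀ᶠ z in 𝓝 (p i), Ch p l z (z + s • dir θ) :=
    ((Pool.Agent.W762.BB.open_it n p hp l).preimage (continuous_id.prodMk hc)).mem_nhds hch
  have hsd : Continuous fun z : ℂ => σ * sd p j (fd p l (z + s • dir θ, θ)) :=
    continuous_const.mul ((sd_cont p j).comp ((fd_cont hp l).comp (hc.prodMk continuous_const)))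
  have hval : sd p j (fd p l (p i + s • dir θ, θ)) = vd p (p i) θ u K j := by
    rw [hl, fd_word hp]
    unfold vd sd
    simp only
    have h3 := Pool.Agent.N262.BP.conj_dir_mul (angs p θ u K)
    have h4 : conj (dir (angs p θ u K)) * (srcs p (p i) u K + s • dir (angs p θ u K) - p j) =
        conj (dir (angs p θ u K)) * (srcs p (p i) u K - p j) + ((s : ℝ) : ℂ) := by
      rw [real_smul]
      linear_combination ((s : ℝ) : ℂ) * h3
    rw [h4, add_im, ofReal_im, add_zero]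
  have e2 : ∀ᶠ z in 𝓝 (p i), 0 < σ * sd p j (fd p l (z + s • dir θ, θ)) :=
    (hsd.tendsto (p i)).eventually_const_lt (by rw [hval]; exact h1)
  have e3 : ∀ᶠ z in 𝓝 (p i), σ * sd p j (fd p l (z + s • dir θ, θ)) < r :=
    (hsd.tendsto (p i)).eventually_lt_const (by rw [hval]; exact h2)
  obtain ⟨δ, hδ, hball⟩ := Metric.eventually_nhds_iff.1 (e1.and (e2.and e3))
  obtain ⟨m, hm⟩ := exists_nat_one_div_lt hδ
  refine ⟨m, q, ?_⟩
  have hmp : MeasurePreserving (fun z : ℂ => fp p l (z + s • dir θ)) :=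
    (Pool.Agent.N681.BP.mp_fp p l).comp (measurePreserving_add_right (volume : Measure ℂ) (s • dir θ))
  have hae := hmp.quasiMeasurePreserving.ae (measure_eq_zero_iff_ae_notMem.1 hq)
  rw [measure_eq_zero_iff_ae_notMem]
  filter_upwards [hae] with z hz hbad
  obtain ⟨b1, b2, b3⟩ := hbad
  obtain ⟨c1, c2, c3⟩ := hball (y := z) (by rw [dist_eq_norm]; exact b2.trans hm)
  have hfd : fd p l (z + s • dir θ, θ) = (fp p l (z + s • dir θ), angs p θ u K) := by
    have h3 := Pool.Agent.N681.BP.fd_eq p l (z + s • dir θ) θ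
    have h4 : (fd p l (z + s • dir θ, θ)).2 = angs p θ u K := by rw [hl, fd_word hp]
    rw [h3] at h4 ⊢
    rw [← h4]
  apply hz
  show (fp p l (z + s • dir θ), angs p θ u K) ∈ SB p f j σ η r q
  rw [← hfd]
  refine ⟨?_, c2, c3, ?_⟩
  · rw [hfd]; exact ch_mem l _ _ c1
  · rw [← inv_fun hp hI b1 c1]; exact b3

/-- A vector is almost never parallel to the direction. -/
theorem ae_V (i q : Fin (n + 3)) (h : p i ≠ p q) : ∀ᵐ θ : ℝ, V p (p i) θ q ≠ 0 := by
  set v : ℂ := p i - p q with hv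
  have hv0 : v ≠ 0 := sub_ne_zero.2 h
  have hcount : {θ : ℝ | ¬ V p (p i) θ q ≠ 0}.Countable := by
    refine (countable_range fun k : ℤ => arg v - (k : ℝ) * π).mono ?_
    intro θ hθ
    rw [mem_ofPred_eq, not_not] at hθ
    have e1 : V p (p i) θ q = ‖v‖ * Real.sin (arg v - θ) := by
      have h3 : v = (‖v‖ : ℂ) * dir (arg v) := by
        unfold dir
        exact (Complex.norm_mul_exp_arg_mul_I _).symm
      have h4 : V p (p i) θ q = (conj (dir θ) * v).im := rfl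
      rw [h4]
      conv_lhs => rw [h3]
      rw [conj_dir, mul_left_comm, dir_mul, im_ofReal_mul, dir_im]
      congr 2
      ring
    rw [e1] at hθ
    rcases mul_eq_zero.1 hθ with h1 | h1
    · exact absurd h1 (norm_ne_zero_iff.2 hv0)
    · obtain ⟨k, hk⟩ := Real.sin_eq_zero_iff.1 h1
      exact ⟨k, by simp only; linarith⟩
  exact hcount.measure_zero _

/-- the bad directions of arrival -/
def BD (p : Fin (n + 3) → ℂ) (f : ℂ × ℝ → ℝ) (η : ℝ) (m : ℕ) (x : Fin (n + 3) × Bool) : Set ℝ :=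
  {φ | sl p x.1 φ < 0 ∧ sl p (x.1 - 1) φ < 0 ∧
    φ ∉ SG p f x.1 (if x.2 then 1 else -1) η (1 / ((m : ℝ) + 1))}

theorem bd_meas (hp : IsConvexPolygon p) {f : ℂ × ℝ → ℝ} (hf : Measurable f) (η : ℝ) (m : ℕ)
    (x : Fin (n + 3) × Bool) : MeasurableSet (BD p f η m x) := by
  refine (measurableSet_lt (sl_cont x.1).measurable measurable_const).inter
    ((measurableSet_lt (sl_cont (x.1 - 1)).measurable measurable_const).inter ?_)
  exact (sg_meas hp hf x.1 _ η _).compl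

theorem bd_per {f : ℂ × ℝ → ℝ} (hI : IsInvariantFun p f) (η : ℝ) (m : ℕ)
    (x : Fin (n + 3) × Bool) (φ : ℝ) : φ + 2 * π ∈ BD p f η m x ↔ φ ∈ BD p f η m x := by
  have h0 : dir (φ + 2 * π) = dir φ := by
    have := dir_per φ 1
    rwa [Int.cast_one, one_mul] at this
  show (sl p x.1 (φ + 2 * π) < 0 ∧ sl p (x.1 - 1) (φ + 2 * π) < 0 ∧
    φ + 2 * π ∉ SG p f x.1 _ η _) ↔ (sl p x.1 φ < 0 ∧ sl p (x.1 - 1) φ < 0 ∧ φ ∉ SG p f x.1 _ η _)
  rw [sl_dir h0, sl_dir h0, sg_per hI]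

theorem bd_anti {f : ℂ × ℝ → ℝ} (η : ℝ) (x : Fin (n + 3) × Bool) :
    Antitone fun m => BD p f η m x := by
  intro m m' h φ hφ
  obtain ⟨h1, h2, h3⟩ := hφ
  refine ⟨h1, h2, fun h4 => h3 (sg_mono ?_ h4)⟩
  apply one_div_le_one_div_of_le (by positivity)
  have : (m : ℝ) ≤ m' := by exact_mod_cast h
  linarith

/-- One-sided limits (in strips) at the vertices in the directions which leave the polygon. -/
def OutLimits (p : Fin (n + 3) → ℂ) (f : ℂ × ℝ → ℝ) : Prop :=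
  ∀ j, ∀ σ : ℝ, (σ = 1 ∨ σ = -1) → ∀ᵐ φ : ℝ, sl p j φ < 0 → sl p (j - 1) φ < 0 →
    ∀ η : ℝ, 0 < η → ∃ r : ℝ, 0 < r ∧ φ ∈ SG p f j σ η r

theorem bd_null {f : ℂ × ℝ → ℝ} (hO : OutLimits p f) {η : ℝ} (hη : 0 < η)
    (x : Fin (n + 3) × Bool) : volume (⋂ m, BD p f η m x) = 0 := by
  rw [measure_eq_zero_iff_ae_notMem]
  have hσ : (if x.2 then (1 : ℝ) else -1) = 1 ∨ (if x.2 then (1 : ℝ) else -1) = -1 := by
    by_cases h : x.2 = true
    · left; rw [if_pos h]
    · right; rw [if_neg h]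
  filter_upwards [hO x.1 _ hσ] with φ hφ hmem
  rw [mem_iInter] at hmem
  obtain ⟨r, hr, hr2⟩ := hφ (hmem 0).1 (hmem 0).2.1 η hη
  obtain ⟨m, hm⟩ := exists_nat_one_div_lt hr
  exact (hmem m).2.2 (sg_mono hm.le hr2)

theorem bd_tendsto (hp : IsConvexPolygon p) {f : ℂ × ℝ → ℝ} (hf : Measurable f)
    (hO : OutLimits p f) {η : ℝ} (hη : 0 < η) :
    Tendsto (fun m => ∑ x : Fin (n + 3) × Bool, volume (BD p f η m x ∩ Ioc 0 (2 * π))) atTop
      (𝓝 0) := by
  have h1 : ∀ x : Fin (n + 3) × Bool,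
      Tendsto (fun m => volume (BD p f η m x ∩ Ioc 0 (2 * π))) atTop (𝓝 0) := by
    intro x
    have h2 : Tendsto (fun m => volume (BD p f η m x ∩ Ioc 0 (2 * π))) atTop
        (𝓝 (volume (⋂ m, (BD p f η m x ∩ Ioc 0 (2 * π))))) := by
      refine tendsto_measure_iInter_atTop (fun m => ((bd_meas hp hf η m x).inter
        measurableSet_Ioc).nullMeasurableSet) ?_ ⟨0, ?_⟩
      · intro m m' h
        exact inter_subset_inter_left _ (bd_anti η x h)
      · exact ((measure_mono inter_subset_right).trans_lt measure_Ioc_lt_top).ne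
    have h3 : volume (⋂ m, (BD p f η m x ∩ Ioc 0 (2 * π))) = 0 := by
      refine measure_mono_null ?_ (bd_null hO hη x)
      exact iInter_mono fun m => inter_subset_left
    rwa [h3] at h2
  have := tendsto_finsetSum (Finset.univ : Finset (Fin (n + 3) × Bool)) fun x _ => h1 x
  simpa using this

/-- the limit at `p i`, up to `1 / (k + 1)` -/
def G1 (p : Fin (n + 3) → ℂ) (f : ℂ × ℝ → ℝ) (i : Fin (n + 3)) (k : ℕ) (θ : ℝ) : Prop :=
  ∃ (m : ℕ) (q : ℚ), volume {z : ℂ | z ∈ reg p ∧ ‖z - p i‖ < 1 / ((m : ℝ) + 1) ∧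
    1 / ((k : ℝ) + 1) < |f (z, θ) - q|} = 0

theorem step_one (hp : IsConvexPolygon p) {f : ℂ × ℝ → ℝ} (hf : Measurable f)
    (hI : IsInvariantFun p f) (hO : OutLimits p f) (i : Fin (n + 3)) (k : ℕ) :
    ∀ᵐ θ : ℝ, 0 < sl p i θ → 0 < sl p (i - 1) θ → G1 p f i k θ := by
  have hη : (0 : ℝ) < 1 / ((k : ℝ) + 1) := by positivity
  -- the generic directions
  have hinj : Function.Injective p := (hB n p hp).1
  have hV : ∀ᵐ θ : ℝ, ∀ q, q ≠ i → V p (p i) θ q ≠ 0 := by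
    rw [ae_all_iff]
    intro q
    by_cases hq : q = i
    · exact Eventually.of_forall fun θ h => absurd hq h
    · filter_upwards [ae_V (p := p) i q fun h => hq (hinj h).symm] with θ hθ _ using hθ
  set N : ℕ → Set ℝ := fun k' => {θ | 0 < sl p i θ ∧ 0 < sl p (i - 1) θ ∧
    (∀ z : ℂ, (∀ w j, ∀ s : ℝ, 0 < s → z + s • dir θ ≠ uf p w (p j)) ∨
      (∀ w j, ∀ s : ℝ, 0 < s → z - s • dir θ ≠ uf p w (p j))) ∧
    (∀ z ∈ reg p, ∀ (u : ℕ → Fin (n + 3)) (t : ℕ → ℝ), Orb p z θ u t →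
      ∀ ε : ℝ, 0 < ε → ∃ (K : ℕ) (j : Fin (n + 3)), ‖pt p z θ u t K - p j‖ < ε) ∧
    (∀ q, q ≠ i → 1 / ((k' : ℝ) + 1) ≤ |V p (p i) θ q|) ∧ ¬ G1 p f i k θ} with hN
  have hsub : ∀ k' m, k' ≤ m → ∀ a : ℝ, N k' ∩ Ioc a (a + 2 * π) ⊆
      ⋃ x : Fin (n + 3) × Bool, ((⋃ l : List (Fin (n + 3)),
        {θ | θ ∈ E p i x.1 (if x.2 then 1 else -1) (1 / ((m : ℝ) + 1)) l ∧
          angs p θ (wl l) l.length ∈ BD p f (1 / ((k : ℝ) + 1)) m x}) ∩ Ioc a (a + 2 * π)) := by
    rintro k' m hkm a θ ⟨⟨h1, h2, h3, h4, h5, h6⟩, ha⟩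
    have hr : (0 : ℝ) < 1 / ((m : ℝ) + 1) := by positivity
    have hle : 1 / ((m : ℝ) + 1) ≤ 1 / ((k' : ℝ) + 1) := by
      apply one_div_le_one_div_of_le (by positivity)
      have : (k' : ℝ) ≤ m := by exact_mod_cast hkm
      linarith
    obtain ⟨u, t, K, j, σ, O, hσ, hH, c1, c2, c3, c4⟩ :=
      cover hp hr h1 h2 h3 h4 fun q hq => hle.trans (h5 q hq)
    have hb : ∃ b : Bool, σ = if b then 1 else -1 := by
      rcases hσ with rfl | rfl
      · exact ⟨true, by simp⟩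
      · exact ⟨false, by simp⟩
    obtain ⟨b, rfl⟩ := hb
    refine mem_iUnion.2 ⟨(j, b), mem_iUnion.2 ⟨(List.range K).map u, ?_⟩, ha⟩
    obtain ⟨d1, d2⟩ := mem_E hH c1 c2
    refine ⟨d1, ?_⟩
    rw [d2]
    refine ⟨c3, c4, fun hS => h6 ?_⟩
    exact transport hp hI O c1 c2 hS
  have hNull : ∀ k' a, volume (N k' ∩ Ioc a (a + 2 * π)) = 0 := by
    intro k' a
    have hle : ∀ m, k' ≤ m → volume (N k' ∩ Ioc a (a + 2 * π)) ≤
        ∑ x : Fin (n + 3) × Bool, volume (BD p f (1 / ((k : ℝ) + 1)) m x ∩ Ioc 0 (2 * π)) := by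
      intro m hm
      refine (measure_mono (hsub k' m hm a)).trans ((measure_iUnion_fintype_le _ _).trans ?_)
      refine Finset.sum_le_sum fun x _ => ?_
      refine sum_le hp i x.1 ?_ (bd_meas hp hf _ m x) (bd_per hI _ m x) a
      by_cases h : x.2 = true
      · left; rw [if_pos h]
      · right; rw [if_neg h]
    exact le_antisymm (ge_of_tendsto (bd_tendsto hp hf hO hη)
      ((eventually_ge_atTop k').mono hle)) zero_le
  have hNull2 : ∀ k', volume (N k') = 0 := by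
    intro k'
    have hcov : N k' ⊆ ⋃ m : ℤ, (N k' ∩ Ioc ((m : ℝ) * (2 * π)) ((m : ℝ) * (2 * π) + 2 * π)) := by
      intro θ hθ
      have hpi := Real.two_pi_pos
      refine mem_iUnion.2 ⟨⌈θ / (2 * π)⌉ - 1, hθ, ?_, ?_⟩
      · have := Int.ceil_lt_add_one (θ / (2 * π))
        have h2 : (⌈θ / (2 * π)⌉ : ℝ) - 1 < θ / (2 * π) := by linarith
        rw [lt_div_iff₀ hpi] at h2
        push_cast
        exact h2
      · have := Int.le_ceil (θ / (2 * π))
        rw [div_le_iff₀ hpi] at this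
        push_cast
        linarith
    exact measure_mono_null hcov (measure_iUnion_null fun m => hNull k' _)
  have hall := ae_all_iff.2 fun k' => measure_eq_zero_iff_ae_notMem.1 (hNull2 k')
  filter_upwards [hall, hV, no_diag p, Pool.Agent.N130.BP.t_allp n p hp] with θ g1 g2 g3 g4 h1 h2
  by_contra hcon
  obtain ⟨k', hk'⟩ : ∃ k' : ℕ, ∀ q, q ≠ i → 1 / ((k' : ℝ) + 1) ≤ |V p (p i) θ q| := by
    have h3 : ∀ᶠ k' : ℕ in atTop, ∀ q, q ≠ i → 1 / ((k' : ℝ) + 1) ≤ |V p (p i) θ q| := by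
      rw [eventually_all]
      intro q
      by_cases hq : q = i
      · exact Eventually.of_forall fun _ h => absurd hq h
      · have h4 : 0 < |V p (p i) θ q| := abs_pos.2 (g2 q hq)
        filter_upwards [(tendsto_one_div_add_atTop_nhds_zero_nat (𝕜 := ℝ)).eventually_lt_const h4]
          with k' hk' _ using hk'.le
    exact h3.exists
  exact g1 k' ⟨h1, h2, g3, g4, hk', hcon⟩

end Pool.Agent.U106.BI
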