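import Pool.Agent.U106.BI.Hits

set_option autoImplicit false

/-!
Billiards in convex polygons: invariant functions whose slices are continuous almost everywhere take at
most as many values as there are vertices.
-/

namespace Pool.Agent.U106.BI

open Complex Set MeasureTheory Filter Topology Pool.Agent.W780.PG Pool.Agent.W780.BB
  Pool.Agent.TH103.BL Pool.Agent.N557.BP

open scoped Real ComplexConjugate

variable {n : ℕ} {p : Fin (n + 3) → ℂ}

/-- the slice in the direction `θ` has the limit `l` at `z0` -/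
def LimTo (p : Fin (n + 3) → ℂ) (f : ℂ × ℝ → ℝ) (z0 : ℂ) (θ l : ℝ) : Prop :=
  ∀ η : ℝ, 0 < η → ∃ r : ℝ, 0 < r ∧ ∀ᵐ z : ℂ, z ∈ region p → ‖z - z0‖ < r → |f (z, θ) - l| ≤ η

/-- the values of the limits at a vertex form a measurable function -/
theorem v_one (hp : IsConvexPolygon p) {f : ℂ × ℝ → ℝ} (hf : Measurable f)
    (hI : IsInvariantFun p f) (i : Fin (n + 3)) :
    ∃ g : ℝ → ℝ, Measurable g ∧ (∀ θ, g (θ + 2 * π) = g θ) ∧
      ∀ θ l, LimTo p f (p i) θ l → l = g θ := by
  have hrr := region_eq hp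
  have hopen := reg_open hp
  obtain ⟨R, hR⟩ : ∃ R : ℕ → Set ℂ, ∀ m, R m = reg p ∩ Metric.ball (p i) (1 / ((m : ℝ) + 1)) :=
    ⟨_, fun _ => rfl⟩
  have hRo : ∀ m, IsOpen (R m) := fun m => by
    rw [hR]
    exact hopen.inter Metric.isOpen_ball
  have hRne : ∀ m, (R m).Nonempty := fun m => by
    obtain ⟨z, hz, hzr⟩ := near_vertex hp i (show (0 : ℝ) < 1 / ((m : ℝ) + 1) by positivity)
    rw [hR]
    exact ⟨z, hz, by rwa [mem_ball_iff_norm]⟩
  have hRfin : ∀ m, (volume : Measure ℂ) (R m) < ⊤ := fun m => by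
    rw [hR]
    exact (measure_mono inter_subset_right).trans_lt measure_ball_lt_top
  have hRpos : ∀ m, 0 < (volume : Measure ℂ).real (R m) := fun m =>
    ENNReal.toReal_pos ((hRo m).measure_pos volume (hRne m)).ne' (hRfin m).ne
  obtain ⟨h, hh⟩ : ∃ h : ℕ → ℝ → ℝ, ∀ m θ, h m θ =
      ((volume : Measure ℂ).real (R m))⁻¹ * ∫ z in R m, Real.arctan (f (z, θ)) :=
    ⟨_, fun _ _ => rfl⟩
  have hhm : ∀ m, Measurable (h m) := fun m => by
    have e : h m = fun θ => ((volume : Measure ℂ).real (R m))⁻¹ *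
        ∫ z in R m, Real.arctan (f (z, θ)) := funext (hh m)
    rw [e]
    have hm : Measurable (Function.uncurry fun (z : ℂ) (θ : ℝ) => Real.arctan (f (z, θ))) :=
      Real.measurable_arctan.comp hf
    exact (hm.stronglyMeasurable.integral_prod_left (μ := (volume : Measure ℂ).restrict
      (R m))).measurable.const_mul _
  have hhp : ∀ m θ, h m (θ + 2 * π) = h m θ := fun m θ => by
    rw [hh, hh]
    simp only [hI.periodic]
  have htan : Measurable Real.tan := by
    have : Real.tan = fun x => Real.sin x / Real.cos x := funext Real.tan_eq_sin_div_cos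
    rw [this]
    exact Real.measurable_sin.div Real.measurable_cos
  refine ⟨fun θ => Real.tan (limsup (fun m => h m θ) atTop), htan.comp (Measurable.limsup hhm),
    fun θ => by simp only [hhp], fun θ l hl => ?_⟩
  have hlim : Tendsto (fun m => h m θ) atTop (𝓝 (Real.arctan l)) := by
    rw [Metric.tendsto_atTop]
    intro ε hε
    obtain ⟨δ0, hδ0, hδ0'⟩ := Metric.continuousAt_iff.1 (Real.continuous_arctan.continuousAt (x := l))
      (ε / 2) (by positivity)
    obtain ⟨δ, hδ, hδ'⟩ := hl (δ0 / 2) (by positivity)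
    obtain ⟨N, hN⟩ := exists_nat_one_div_lt hδ
    refine ⟨N, fun m hm => ?_⟩
    have hmN : 1 / ((m : ℝ) + 1) < δ := by
      refine lt_of_le_of_lt ?_ hN
      apply one_div_le_one_div_of_le (by positivity)
      have : (N : ℝ) ≤ m := by exact_mod_cast hm
      linarith
    have hint : IntegrableOn (fun z => Real.arctan (f (z, θ))) (R m) volume := by
      have hmz : Measurable fun z : ℂ => Real.arctan (f (z, θ)) :=
        Real.measurable_arctan.comp (hf.comp (measurable_id.prodMk measurable_const))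
      refine Measure.integrableOn_of_bounded (hRfin m).ne hmz.aestronglyMeasurable (M := π / 2) ?_
      refine Eventually.of_forall fun z => ?_
      rw [Real.norm_eq_abs, abs_le]
      exact ⟨by linarith [Real.neg_pi_div_two_lt_arctan (f (z, θ))],
        (Real.arctan_lt_pi_div_two (f (z, θ))).le⟩
    have hconst : IntegrableOn (fun _ : ℂ => Real.arctan l) (R m) volume :=
      integrableOn_const (hRfin m).ne
    have hbd : ‖∫ z in R m, (Real.arctan (f (z, θ)) - Real.arctan l)‖ ≤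
        ε / 2 * (volume : Measure ℂ).real (R m) := by
      refine norm_setIntegral_le_of_norm_le_const_ae' (hRfin m) ?_
      filter_upwards [hδ'] with z hz hzR
      rw [hR] at hzR
      have hzr : z ∈ region p := by rw [hrr]; exact hzR.1
      have h1 := hz hzr (by
        have := Metric.mem_ball.1 hzR.2
        rw [dist_eq_norm] at this
        exact this.trans hmN)
      rw [← dist_eq_norm]
      refine (hδ0' ?_).le
      rw [Real.dist_eq]
      linarith
    rw [integral_sub hint hconst, setIntegral_const, smul_eq_mul] at hbd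
    rw [dist_eq_norm, hh]
    exact Pool.Agent.N31.BP.alg (hRpos m) hε hbd
  show l = Real.tan (limsup (fun m => h m θ) atTop)
  rw [hlim.limsup_eq, Real.tan_arctan]

/-- the limits at the vertices are constants -/
theorem vertex_values (hp : IsConvexPolygon p) (hirr : ∀ i, Irrational (ang p i / π))
    {f : ℂ × ℝ → ℝ} (hf : Measurable f) (hI : IsInvariantFun p f)
    (hV : ∀ i, ∀ᵐ θ : ℝ, VL p f i θ) :
    ∃ c : Fin (n + 3) → ℝ, ∀ i, ∀ᵐ θ : ℝ, LimTo p f (p i) θ (c i) := by
  have key : ∀ i, ∃ c : ℝ, ∀ᵐ θ : ℝ, LimTo p f (p i) θ c := by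
    intro i
    obtain ⟨g, hg, hper, hgl⟩ := v_one hp hf hI i
    have hVg : ∀ᵐ θ : ℝ, LimTo p f (p i) θ (g θ) := by
      filter_upwards [hV i] with θ hθ
      obtain ⟨l, hl⟩ := hθ
      rw [← hgl θ l hl]
      exact hl
    have hlaw : ∀ a : Fin (n + 3), (i = a ∨ i = a + 1) →
        ∀ᵐ θ : ℝ, g (2 * tau p a - θ) = g θ := by
      intro a hia
      have hV2 : ∀ᵐ θ : ℝ, LimTo p f (p i) (2 * tau p a - θ) (g (2 * tau p a - θ)) :=
        (Measure.measurePreserving_sub_left (volume : Measure ℝ)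
          (2 * tau p a)).quasiMeasurePreserving.ae hVg
      have h3 : ∀ᵐ θ : ℝ, sl p a θ < 0 → g θ = g (2 * tau p a - θ) := by
        filter_upwards [hVg, hV2] with θ h1 h2 hsl
        have hall : ∀ η : ℝ, 0 < η → |g θ - g (2 * tau p a - θ)| ≤ 2 * η := by
          intro η hη
          obtain ⟨r1, hr1, q1⟩ := h1 η hη
          obtain ⟨r2, hr2, q2⟩ := h2 η hη
          refine Pool.Agent.N574.BP.geo hp hI hia (lt_min hr1 hr2) hsl ?_ ?_
          · filter_upwards [q1] with z hz hz1 hz2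
            exact hz hz1 (lt_of_lt_of_le hz2 (min_le_left _ _))
          · filter_upwards [q2] with z hz hz1 hz2
            exact hz hz1 (lt_of_lt_of_le hz2 (min_le_right _ _))
        have h6 : |g θ - g (2 * tau p a - θ)| ≤ 0 := by
          apply le_of_forall_pos_le_add
          intro ε hε
          have := hall (ε / 2) (by linarith)
          linarith
        exact sub_eq_zero.1 (abs_eq_zero.1 (le_antisymm h6 (abs_nonneg _)))
      have h4 : ∀ᵐ θ : ℝ, sl p a (2 * tau p a - θ) < 0 →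
          g (2 * tau p a - θ) = g (2 * tau p a - (2 * tau p a - θ)) :=
        (Measure.measurePreserving_sub_left (volume : Measure ℝ)
          (2 * tau p a)).quasiMeasurePreserving.ae h3
      filter_upwards [h3, h4, ae_sl hp a] with θ h5 h6 h7
      rcases lt_or_gt_of_ne h7 with h | h
      · exact (h5 h).symm
      · have := h6 (by rw [sl_refl hp]; linarith)
        rw [sub_sub_cancel] at this
        exact this
    obtain ⟨c, hc⟩ := Pool.Agent.N738.BP.const_of_laws hp (hirr i) hg hper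
      (hlaw i (Or.inl rfl)) (hlaw (i - 1) (Or.inr (by rw [sub_add_cancel])))
    refine ⟨c, ?_⟩
    filter_upwards [hVg, hc] with θ h1 h2
    rw [h2] at h1
    exact h1
  choose c hc using key
  exact ⟨c, hc⟩

/-- the limits of the slices are among the values at the vertices -/
theorem lim_values (hp : IsConvexPolygon p) {f : ℂ × ℝ → ℝ} (hI : IsInvariantFun p f)
    {c : Fin (n + 3) → ℝ} (hc : ∀ i, ∀ᵐ θ : ℝ, LimTo p f (p i) θ (c i)) :
    ∀ᵐ θ : ℝ, ∀ z ∈ reg p, ∀ l, LimTo p f z θ l → ∃ j, l = c j := by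
  have hrr := region_eq hp
  have hw : ∀ᵐ θ : ℝ, ∀ (w : List (Fin (n + 3))) (j : Fin (n + 3)),
      LimTo p f (p j) (Pool.Agent.N681.BP.fda p w θ) (c j) := by
    rw [ae_all_iff]
    intro w
    rw [ae_all_iff]
    intro j
    exact (Pool.Agent.N681.BP.mp_fda p w).quasiMeasurePreserving.ae (hc j)
  filter_upwards [hw, Pool.Agent.N130.BP.t_allp n p hp, t_okae n p hp] with θ h1 h2 h3 z hz l hl
  by_contra hcon
  push Not at hcon
  obtain ⟨η, hη, hη2⟩ : ∃ η : ℝ, 0 < η ∧ ∀ j, 3 * η ≤ |l - c j| := by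
    obtain ⟨i0, -, hmin⟩ := Finset.exists_min_image Finset.univ (fun j => |l - c j|)
      ⟨0, Finset.mem_univ _⟩
    refine ⟨|l - c i0| / 3, ?_, fun j => ?_⟩
    · have : 0 < |l - c i0| := abs_pos.2 (sub_ne_zero.2 (hcon i0))
      linarith
    · have := hmin j (Finset.mem_univ _)
      linarith
  obtain ⟨δ0, hδ0, hδae⟩ := hl η hη
  obtain ⟨δ1, hδ1, hδ1b⟩ := Metric.isOpen_iff.1 (reg_open hp) z hz
  obtain ⟨δ, hδ, hδa, hδb⟩ : ∃ δ : ℝ, 0 < δ ∧ 2 * δ ≤ δ0 ∧ 2 * δ ≤ δ1 :=
    ⟨min δ0 δ1 / 2, by positivity, by linarith [min_le_left δ0 δ1], by linarith [min_le_right δ0 δ1]⟩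
  have hreg : ∀ y : ℂ, ‖y - z‖ < 2 * δ → y ∈ reg p := fun y hy =>
    hδ1b (by rw [mem_ball_iff_norm]; linarith)
  obtain ⟨z0, hz0, hz0b⟩ := (Measure.dense_of_ae h3).inter_nhds_nonempty
    (Metric.ball_mem_nhds z hδ)
  rw [Metric.mem_ball, dist_eq_norm] at hz0b
  have hz0r : z0 ∈ reg p := hreg z0 (by linarith)
  obtain ⟨u, t, O⟩ := exists_orb hp (hz0 hz0r)
  obtain ⟨K, hW, j, hj, hjd⟩ :=
    Pool.Agent.N329.BP.t_first n p hp z0 θ u t O (h2 z0 hz0r u t O) δ hδ
  obtain ⟨ρ, hρ, hρ2⟩ := h1 ((List.range K).map u) j η hη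
  have hρq : ∀ᵐ y : ℂ, ∀ q : ℚ,
      fp p ((List.range K).map u) (y + (q : ℝ) • dir θ) ∈ region p →
      ‖fp p ((List.range K).map u) (y + (q : ℝ) • dir θ) - p j‖ < ρ →
      |f (fp p ((List.range K).map u) (y + (q : ℝ) • dir θ),
        Pool.Agent.N681.BP.fda p ((List.range K).map u) θ) - c j| ≤ η := by
    rw [ae_all_iff]
    intro q
    have hmp : MeasurePreserving
        (fun y : ℂ => fp p ((List.range K).map u) (y + (q : ℝ) • dir θ)) :=
      (Pool.Agent.N681.BP.mp_fp p _).comp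
        (measurePreserving_add_right (volume : Measure ℂ) ((q : ℝ) • dir θ))
    exact hmp.quasiMeasurePreserving.ae hρ2
  have hMeet := Pool.Agent.N415.BP.t_meet my_opp Pool.Agent.N262.BP.t_exit t_shift
    (Pool.Agent.N545.BP.t_stay my_opp Pool.Agent.N262.BP.t_exit t_shift)
  obtain ⟨z1, r, hr, hball⟩ := hMeet n p hp z0 θ u t O δ K hW j hj hjd ρ hρ
  obtain ⟨z', ⟨⟨h4, h5⟩, h6⟩, hz'b⟩ :=
    (Measure.dense_of_ae ((h3.and hρq).and hδae)).inter_nhds_nonempty (Metric.ball_mem_nhds z1 hr)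
  rw [Metric.mem_ball, dist_eq_norm] at hz'b
  obtain ⟨h7, h8⟩ := hball z' hz'b
  have hz'z : ‖z' - z‖ < 2 * δ := by
    calc ‖z' - z‖ = ‖(z' - z0) + (z0 - z)‖ := by congr 1; ring
      _ ≤ ‖z' - z0‖ + ‖z0 - z‖ := norm_add_le _ _
      _ < 2 * δ := by linarith
  have hz'r := hreg z' hz'z
  obtain ⟨u', t', O'⟩ := exists_orb hp (h4 hz'r)
  obtain ⟨hu, s1, s2, hs, hall⟩ := h8 u' t' O'
  obtain ⟨q, hq1, hq2⟩ := exists_rat_btwn hs
  obtain ⟨a1, a2, a3⟩ := hall q hq1 hq2
  have hw' : (List.range K).map u' = (List.range K).map u := by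
    refine List.map_congr_left fun m hm => ?_
    exact hu m (List.mem_range.1 hm)
  have hfd := fd_word hp z' θ (q : ℝ) u' K
  rw [hw', Pool.Agent.N681.BP.fd_eq, Prod.mk.injEq] at hfd
  have e1 := h5 q
  rw [hfd.1, hfd.2] at e1
  have e2 := along' hp hI hz'r O' K a1 a2
  have e3 := e1 (by rw [hrr]; exact ps_in O' K a1 a2) a3
  have e4 : |f (z', θ) - c j| ≤ η := by
    rw [e2]
    exact e3
  have e5 := h6 (by rw [hrr]; exact hz'r) (by linarith)
  have e7 := hη2 j
  have e8 : l - c j = (f (z', θ) - c j) - (f (z', θ) - l) := by ring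
  have e9 : |l - c j| ≤ |f (z', θ) - c j| + |f (z', θ) - l| := by
    rw [e8]; exact abs_sub _ _
  linarith

/-- Slices which are continuous almost everywhere: the function takes only the values at the
vertices. -/
theorem values (hp : IsConvexPolygon p) (hirr : ∀ i, Irrational (ang p i / π))
    {f : ℂ × ℝ → ℝ} (hf : Measurable f) (hI : IsInvariantFun p f) (hS : SidedVertexLimits p f)
    (hA : ∀ᵐ θ : ℝ, ∀ᵐ z : ℂ, z ∈ region p → LimAt p f z θ) :
    ∃ c : Fin (n + 3) → ℝ, (∀ᵐ x : ℂ × ℝ, x.1 ∈ region p → ∃ i, f x = c i) ∧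
      ∀ᵐ θ : ℝ, ∀ i, ∃ r : ℝ, 0 < r ∧ ∀ᵐ z : ℂ, z ∈ region p → ‖z - p i‖ < r → f (z, θ) = c i := by
  have hrr := region_eq hp
  have hV := all_limits hp hirr hf hI (out_of_sided hp hI hS)
  obtain ⟨c, hc⟩ := vertex_values hp hirr hf hI hV
  have hlv := lim_values hp hI hc
  have key : ∀ᵐ θ : ℝ, ∀ᵐ z : ℂ, z ∈ region p → ∃ i, f (z, θ) = c i := by
    filter_upwards [hlv, hA] with θ h1 h2
    have hnull : ∀ m : ℕ, volume {z : ℂ | z ∈ reg p ∧ LimAt p f z θ ∧
        ∀ j, 1 / ((m : ℝ) + 1) < |f (z, θ) - c j|} = 0 := by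
      intro m
      refine measure_null_of_locally_null _ fun z hz => ?_
      obtain ⟨hzr, ⟨l, hl⟩, -⟩ := hz
      obtain ⟨j, hj⟩ := h1 z hzr l hl
      obtain ⟨r, hr, hae⟩ := hl (1 / ((m : ℝ) + 1)) (by positivity)
      refine ⟨Metric.ball z r ∩ {z : ℂ | z ∈ reg p ∧ LimAt p f z θ ∧
          ∀ j, 1 / ((m : ℝ) + 1) < |f (z, θ) - c j|},
        inter_mem (mem_nhdsWithin_of_mem_nhds (Metric.ball_mem_nhds z hr)) self_mem_nhdsWithin, ?_⟩
      rw [measure_eq_zero_iff_ae_notMem]
      filter_upwards [hae] with y hy hmem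
      obtain ⟨h3, h4, -, h5⟩ := hmem
      rw [mem_ball_iff_norm] at h3
      have a1 := hy (by rw [hrr]; exact h4) h3
      have a2 := h5 j
      rw [hj] at a1
      linarith
    have hall := ae_all_iff.2 fun m => measure_eq_zero_iff_ae_notMem.1 (hnull m)
    filter_upwards [hall, h2] with z h3 h4 hzr
    by_contra hcon
    push Not at hcon
    have hpos : ∀ᶠ m : ℕ in atTop, ∀ j, 1 / ((m : ℝ) + 1) < |f (z, θ) - c j| := by
      rw [eventually_all]
      intro j
      exact (tendsto_one_div_add_atTop_nhds_zero_nat (𝕜 := ℝ)).eventually_lt_const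
        (abs_pos.2 (sub_ne_zero.2 (hcon j)))
    obtain ⟨m, hm⟩ := hpos.exists
    exact h3 m ⟨by rw [← hrr]; exact hzr, h4 hzr, hm⟩
  refine ⟨c, ?_, ?_⟩
  · have hm : MeasurableSet {x : ℂ × ℝ | x.1 ∈ region p ∧ ∀ i, f x ≠ c i} := by
      refine MeasurableSet.inter ?_ ?_
      · rw [hrr]
        exact measurable_fst (reg_open hp).measurableSet
      · have e : {x : ℂ × ℝ | ∀ i, f x ≠ c i} = ⋂ i, {x | f x ≠ c i} := by
          ext x; simp
        show MeasurableSet {x : ℂ × ℝ | ∀ i, f x ≠ c i}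
        rw [e]
        exact MeasurableSet.iInter fun i => (hf (measurableSet_singleton (c i))).compl
    have h0 : volume {x : ℂ × ℝ | x.1 ∈ region p ∧ ∀ i, f x ≠ c i} = 0 := by
      rw [Measure.volume_eq_prod, Measure.prod_apply_symm hm]
      have h1 : (fun θ : ℝ => volume ((fun z : ℂ => (z, θ)) ⁻¹'
          {x : ℂ × ℝ | x.1 ∈ region p ∧ ∀ i, f x ≠ c i})) =ᵐ[volume] fun _ => 0 := by
        filter_upwards [key] with θ hθ
        refine measure_eq_zero_iff_ae_notMem.2 ?_
        filter_upwards [hθ] with z hz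
        rintro ⟨h1, h2⟩
        obtain ⟨i, hi⟩ := hz h1
        exact h2 i hi
      rw [lintegral_congr_ae h1, lintegral_zero]
    filter_upwards [measure_eq_zero_iff_ae_notMem.1 h0] with x hx hxr
    by_contra hcon
    push Not at hcon
    exact hx ⟨hxr, hcon⟩
  · filter_upwards [key, ae_all_iff.2 hc] with θ h1 h2 i
    -- the gap between the values
    obtain ⟨η, hη, hη2⟩ : ∃ η : ℝ, 0 < η ∧ ∀ j, c j ≠ c i → η < |c j - c i| := by
      have h3 : ∀ᶠ η in 𝓝[>] (0 : ℝ), ∀ j, c j ≠ c i → η < |c j - c i| := by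
        rw [eventually_all]
        intro j
        by_cases hj : c j = c i
        · exact Eventually.of_forall fun _ h => absurd hj h
        · filter_upwards [Ioo_mem_nhdsGT (abs_pos.2 (sub_ne_zero.2 hj))] with η hη _ using hη.2
      obtain ⟨η, h4, h5⟩ := (h3.and self_mem_nhdsWithin).exists
      exact ⟨η, h5, h4⟩
    obtain ⟨r, hr, hae⟩ := h2 i η hη
    refine ⟨r, hr, ?_⟩
    filter_upwards [h1, hae] with z h3 h4 h5 h6
    obtain ⟨j, hj⟩ := h3 h5
    have h7 := h4 h5 h6
    rw [hj] at h7 ⊢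
    by_contra hne
    have := hη2 j hne
    linarith

end Pool.Agent.U106.BI
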